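import Pool.Agent.H62.BL.Sma
import Pool.Agent.H24.RK.Rmg

/-!
# [H93 BX DF] MP_b39724_nt, THE BOX LEMMA BLX (think 1715, section 1): definitions

Port of H62/BL with (i) coefficients `ℤ/q`, `q = p ^ κ`, (ii) arbitrary inertia (`Unz` instead of `HonE`), (iii) words given by their property, (iv) factors which miss a variable,
(v) values at finitely many fixed Galois elements. Algebra: `LG q n P Qg Lm` of H62/BL/Alg (the axiom `pp` is `x ^ q ∈ f (i + 1)`, it holds if `x ^ q = 1` in `P`), `Vd`, `h1`, `hh`, `Lkd`, `cj`, `vt`, `lbq`,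
`Adm`, `ND`, `kdq`, `UGm`, `UGd` of H62/BL/Df with `p := q`, `GLp`, `BX` of H62/BL/Sma.

* `Wy D A J`: local data `L`, `Fr`, a bound `M`, the primes `Z`, words `wv v` (`v ∈ Z`) for the Frobenius elements, words `wj j` (`j : J`) for Galois elements `sj j`.
  `Wy.Val`: the words have the right values for all homomorphisms to `p`-groups of order at most `M` which are unramified outside `S0` and `Z`. `Wy.Ok`: moreover the `sj` separate, the orders are at most `M`.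
* `Rts p κ M N z L`: roots of unity of order `p ^ (N + 1)` and normalised places, `M ≤ p ^ k`, `k + κ ≤ N + 1`.
* `Rd`: the fixed part: primes `T`, labels `lab`, `al`, reduction `phi`, functions `G v` (`v ∈ T`), `H j` (`j : J`). `Rd.Ok`.
* `Fq q`: the summand without the factors. `Mis h`: the factors: `h k q` does not depend on `q k`, `‖h k q‖ ≤ 1`.
* `cel`, `relq`, `reld`, `Hd`, `Uf`: as in H62/BL/Df.
-/

set_option autoImplicit false

open scoped NumberField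
open IsDedekindDomain
open scoped Classical

noncomputable section

namespace H93.BX

open H63.MA H38.BB H38.BG H57.PC H57.BRA H77.WD H77.WE H77.GL H57.AN H35.UB H24.RK H62.BL

variable {K : Type} [Field K] [NumberField K] {Ω : Type} [Field Ω] [Algebra K Ω]
  {p : ℕ} {ζ : K} {D : RD0 K p ζ} {q n : ℕ} {J P Qg Lm : Type} [Group P] [Group Qg] [MulAction Qg Lm]

/-- the data: local data, words -/
structure Wy (D : RD0 K p ζ) (A : GS D Ω) (J : Type) where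
  L : LDs D Ω
  Fr : FR L
  M : ℕ
  Z : Finset (Pl K)
  wv : Pl K → FW A
  sj : J → Gal(Ω/K)
  wj : J → FW A

variable {A : GS D Ω}

/-- the property of the words -/
structure Wy.Val (y : Wy D A J) : Prop where
  v : ∀ (H : Type) [Group H] [Finite H], IsPGroup p H → Nat.card H ≤ y.M → ∀ φ : Gal(Ω/K) →* H,
    Unz y.L y.Z φ → ∀ v ∈ y.Z, hat y.L A φ (y.wv v) = φ (y.Fr.F v)
  j : ∀ (H : Type) [Group H] [Finite H], IsPGroup p H → Nat.card H ≤ y.M → ∀ φ : Gal(Ω/K) →* H,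
    Unz y.L y.Z φ → ∀ j, hat y.L A φ (y.wj j) = φ (y.sj j)

/-- roots of unity, normalised places -/
structure Rts (p κ M N : ℕ) {ζ : K} {D : RD0 K p ζ} (z : K) (L : LDs D Ω) : Prop where
  hz : IsPrimitiveRoot z (p ^ (N + 1))
  hzζ : z ^ p ^ N = ζ
  nl : NL (N + 1) z L
  mm : H57.RQ.N.MM p (N + 1) K
  k : ∃ k, 2 ≤ k ∧ κ ≤ k ∧ k + κ ≤ N + 1 ∧ M ≤ p ^ k

/-- the hypotheses on the data (for the proof) -/
structure Wy.Ok (y : Wy D A J) (Q : DP K Ω) (P Qg Lm : Type) (κ n N : ℕ) (z : K) [Group P] [Group Qg]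
    [MulAction Qg Lm] : Prop where
  val : y.Val
  sep : ∀ (H : Type) [Group H] [Finite H], IsPGroup p H → Nat.card H ≤ y.M →
    ∀ φ φ' : Gal(Ω/K) →* H, H38.ML.FT φ → H38.ML.FT φ' → (∀ j, φ (y.sj j) = φ' (y.sj j)) →
      Teq D.S0 Q φ φ'
  rts : Rts p κ y.M N z y.L
  out : ∀ v ∈ y.Z, v ∉ D.S0
  cP : Nat.card P ≤ y.M
  cQ : Nat.card Qg ≤ y.M
  cm : Nat.card (UGm (p ^ κ) n Qg Lm) ≤ y.M
  cd : Nat.card (UGd (p ^ κ) n Qg Lm) ≤ y.M

/-- the fixed part -/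
structure Rd (A : GS D Ω) (J P Qg : Type) [Group P] [Group Qg] where
  T : Finset (Pl K)
  lab : Pl K → P
  al : Fin A.g → P
  phi : Gal(Ω/K) →* Qg
  G : Pl K → P → ℂ
  H : J → P → ℂ

/-- the labels of the fixed generators -/
def Rd.bs (r : Rd A J P Qg) : Pl K ⊕ Fin A.g → P := Sum.elim r.lab r.al

structure Rd.Ok (r : Rd A J P Qg) (L : LDs D Ω) (Dg : LG q n P Qg Lm) (Z : Finset (Pl K)) : Prop where
  sub : r.T ⊆ Z
  out : ∀ v ∈ r.T, v ∉ D.S0
  one : ∀ v, v ∉ r.T → r.lab v = 1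
  hon : Unz L r.T r.phi
  sur : Function.Surjective r.phi
  lab : ∀ v, r.phi (L.t v) = Dg.pi (r.lab v)
  al : ∀ i, r.phi (A.a i) = Dg.pi (r.al i)
  G : ∀ v x, ‖r.G v x‖ ≤ 1
  H : ∀ j x, ‖r.H j x‖ ≤ 1

/-- the `P`-valued evaluation of words -/
def thq (r : Rd A J P Qg) (v : Vd n P Qg Lm) (q : Fin (n + 2) → Pl K) : FW A →* P :=
  FreeGroup.lift (Sum.elim (lbq q v.g r.lab) r.al)

/-- the universal evaluation of words -/
def aq (Dg : LG q n P Qg Lm) (r : Rd A J P Qg) (v : Vd n P Qg Lm) (x : Fin (n + 2) → Pl K) :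
    FW A →* UGm q n Qg Lm :=
  FreeGroup.lift (Sum.elim (lbq x (fun k => lt ⟨k, v.lam k⟩ 1) fun w => qi (Dg.pi (r.lab w)))
    fun i => qi (Dg.pi (r.al i)))

/-- the relative evaluation, all indices -/
def relq (Dg : LG q n P Qg Lm) (r : Rd A J P Qg) (v : Vd n P Qg Lm) (q0 q1 : Fin (n + 2) → Pl K) :
    FW A →* UGm q n Qg Lm :=
  rel (WN Qg Lm Set.univ (n + 1)) (kdq A id q0 q1) (fun x => Dg.pi (r.bs x)) v.lam

/-- the relative evaluation, indices different from `0` -/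
def reld (Dg : LG q n P Qg Lm) (r : Rd A J P Qg) (v : Vd n P Qg Lm) (a b : Fin (n + 1) → Pl K) :
    FW A →* UGd q n Qg Lm :=
  rel (WN Qg Lm {i | i ≠ 0} (n + 1)) (kdq A Fin.succ a b) (fun x => Dg.pi (r.bs x)) v.lam

/-- the summand without the factors -/
def Fq [Fintype J] (y : Wy D A J) (r : Rd A J P Qg) (v : Vd n P Qg Lm) (x : Fin (n + 2) → Pl K) : ℂ :=
  if Adm r.T x then (∏ w ∈ r.T, r.G w (thq r v x (y.wv w))) * (∏ j, r.H j (thq r v x (y.wj j))) *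
    ∏ k, v.G k (thq r v x (y.wv (x k))) else 0

/-- factors: `h k x` does not depend on `x k` -/
structure Mis {m : ℕ} {X : Type} (h : Fin m → (Fin m → X) → ℂ) : Prop where
  le : ∀ k x, ‖h k x‖ ≤ 1
  upd : ∀ k x u, h k (Function.update x k u) = h k x

/-- the values of a cell -/
abbrev Cel (Dg : LG q n P Qg Lm) (r : Rd A J P Qg) : Type :=
  (r.T → P) × (J → P) × (Fin (n + 2) → P ⧸ Dg.f (n + 1)) ×
    (r.T → (WN Qg Lm (Set.univ : Set (Fin (n + 2))) (n + 1)).s → ZMod q) ×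
    (J → (WN Qg Lm (Set.univ : Set (Fin (n + 2))) (n + 1)).s → ZMod q) ×
    (Fin (n + 2) → (WN Qg Lm (Set.univ : Set (Fin (n + 2))) (n + 1)).s → ZMod q)

/-- the cell of `x` -/
def cel (y : Wy D A J) (Dg : LG q n P Qg Lm) (r : Rd A J P Qg) (v : Vd n P Qg Lm)
    (x : Fin (n + 2) → Pl K) : Cel Dg r :=
  (fun w => thq r v x (y.wv w), fun j => thq r v x (y.wj j), fun k => ↑(thq r v x (y.wv (x k))),
    fun w u => (aq Dg r v x (y.wv w)).c u, fun j u => (aq Dg r v x (y.wj j)).c u,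
    fun k u => if (u : List (Lr (Fin (n + 2)) Lm)).length ≤ n ∧ ∀ a ∈ (u : List (Lr (Fin (n + 2)) Lm)), a.i ≠ k then
      (aq Dg r v x (y.wv (x k))).c u else 0)

/-- `Ψ` is honest with the words `reld` -/
def Hd (y : Wy D A J) (Dg : LG q n P Qg Lm) (r : Rd A J P Qg) (v : Vd n P Qg Lm)
    (a b : Fin (n + 1) → Pl K) (Ψ : Gal(Ω/K) →* UGd q n Qg Lm) : Prop :=
  Unz y.L (r.T ∪ Finset.univ.image a ∪ Finset.univ.image b) Ψ ∧ hat y.L A Ψ = reld Dg r v a b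

/-- the inserted function -/
def Uf [Fintype Lm] (y : Wy D A J) (Dg : LG q n P Qg Lm) (r : Rd A J P Qg) (v : Vd n P Qg Lm)
    (q1 : Fin (n + 2) → Pl K) (w : Pl K) (a : Fin (n + 1) → Pl K) : ℂ :=
  if ND r.T (Fin.cons w a : Fin (n + 2) → Pl K) q1 ∧ ∃ Ψ, Hd y Dg r v a (Fin.tail q1) Ψ then
    h1 Dg v (reld Dg r v a (Fin.tail q1) (y.wv w)) else 0

/-- the conditions on the family of the fixed parts -/
structure Rf (y : Wy D A J) (Dg : LG q n P Qg Lm) (C₁ : ℕ) (Y : ℝ) {ι : Type} (I : Finset ι)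
    (r : ι → Rd A J P Qg) : Prop where
  ok : ∀ i ∈ I, (r i).Ok y.L Dg y.Z
  nr : ∀ i ∈ I, nr (r i).T ≤ Y ^ C₁
  card : ∀ i ∈ I, ((r i).T.card : ℝ) ≤ C₁ * Real.log (Real.log Y)
  mul : ∀ s, ((I.filter fun i => (r i).T = s).card : ℝ) ≤ Real.log Y ^ C₁

/-- LINKED: `kp` does not vanish on a right normed bracket of conjugates of the letters `1, ..., n + 1`, any order of the indices -/
def Lk [Fintype Lm] (Dg : LG q n P Qg Lm) (lam : Fin (n + 2) → Lm) : Prop :=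
  ∃ (τ : Equiv.Perm (Fin (n + 1))) (u : Fin (n + 1) → Qg), Dg.kp (lam 0)
    (br (List.ofFn fun i : Fin (n + 1) => (⟨(τ i).succ, u i • lam (τ i).succ⟩ : Lr (Fin (n + 2)) Lm))) ≠ 0

theorem lkd_lk [Fintype Lm] {Dg : LG q n P Qg Lm} {lam : Fin (n + 2) → Lm} (h : Lkd Dg lam) : Lk Dg lam := by
  obtain ⟨u, hu⟩ := h
  exact ⟨Fin.revPerm, u, hu⟩

/-- the bound for the orders of the groups of words -/
def Mx (q m : ℕ) : ℕ := m * q ^ ((m + 2) * m + 1) ^ (m + 1)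

/-- THE BOX LEMMA BLX, functionals with values in `ℤ/p^κ`, `p`-groups of order at most `m` (any exponent; the axiom `pp` of `LG` for `p ^ κ`), at most `m` labels, at most `m + 1` variables, at most `c` fixed words; places normalised by `z` of order
`p ^ (N + 1)` -/
def BLX (D : RD0 K p ζ) (Ω : Type) [Field Ω] [Algebra K Ω] (A : GS D Ω) (κ m c N : ℕ) (z : K) : Prop :=
  ∀ (C₁ A₁ C' : ℕ) (ε : ℝ), 0 < ε → ∃ Y₀ : ℝ, 3 ≤ Y₀ ∧ ∀ Y : ℝ, Y₀ ≤ Y →
    ∀ (J : Type) [Fintype J] (y : Wy D A J), Fintype.card J ≤ c → y.Val → y.M = Mx (p ^ κ) m →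
      NL (N + 1) z y.L → GLp p y.Fr (Mx (p ^ κ) m ^ (2 ^ m)) (C₁ * (3 * m + 4)) C' Y →
      (∀ v ∈ y.Z, v ∉ D.S0) → ∀ Z₀ : ℝ, Z₀ ≤ Y ^ C₁ → (∀ v, D.Gd v → (nm v : ℝ) ≤ Z₀ → v ∈ y.Z) →
    ∀ (n : ℕ) (P Qg Lm : Type) [Group P] [Group Qg] [MulAction Qg Lm] [Finite P] [Fintype Lm]
      (Dg : LG (p ^ κ) n P Qg Lm) (v : Vd n P Qg Lm), n + 1 ≤ m → Nat.card P ≤ m →
      Nat.card Lm ≤ m → IsPGroup p P → v.Ok Dg → Lk Dg v.lam →
    ∀ (ι : Type) (I : Finset ι) (r : ι → Rd A J P Qg) (h : ι → Fin (n + 2) → (Fin (n + 2) → Pl K) → ℂ)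
      (lo hi : ι → Fin (n + 2) → ℝ), Rf y Dg C₁ Y I r → (∀ i ∈ I, Mis (h i)) →
      (∀ i ∈ I, ∀ k, Real.exp (Real.log Y ^ ε) ≤ lo i k ∧ lo i k ≤ hi i k ∧
        hi i k ≤ 2 * lo i k ∧ hi i k ≤ Z₀) →
      ∑ i ∈ I, (nr (r i).T)⁻¹ * (∏ k, lo i k)⁻¹ *
        ‖∑ x ∈ Fintype.piFinset (fun k => BX D y.Z (r i).T (lo i k) (hi i k)),
          Fq y (r i) v x * ∏ k, h i k x‖ ≤ Real.log Y ^ (-(A₁ : ℝ))

end H93.BX
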