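import Pool.Agent.H93.BX.Blx
import Pool.Agent.H86.BX.Pbl

/-!
# [H93 BX BLZ] BLX in the form of H86/BX/Pbl, and `PBL p`

`blxz`: `H86.BX.BLXz` from `BLX`. `pbl`: `PBL p` (H77/INP), all primes.
-/

set_option autoImplicit false

open scoped NumberField
open IsDedekindDomain
open scoped Classical

noncomputable section

namespace H93.BX

open H63.MA H38.ML H38.BB H38.BG H57.PC H57.BRA H77.WD H77.WE H77.GL H57.AN H35.UB H24.RK H57.GP H62.BL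

theorem blxz {K : Type} [Field K] [NumberField K] {p : ℕ} {ζ : K} {D : RD0 K p ζ} {Ω : Type} [Field Ω]
    [Algebra K Ω] {A : GS D Ω} {κ m c N : ℕ} {z : K} (h : BLX D Ω A κ m c N z) :
    H86.BX.BLXz D Ω A κ m c N z := by
  intro C₁ A₁ C' ε hε
  obtain ⟨Y₀, hY₀, h1⟩ := h C₁ A₁ C' ε hε
  refine ⟨Y₀, hY₀, ?_⟩
  intro Y hY J _ y hJ hval hM hnl hgl hout Z₀ hZ₀ hall n P Qg Lm _ _ _ _ _ Dg v hnm hP hL hpP hv hl
  exact h1 Y hY J y hJ hval hM hnl hgl hout Z₀ hZ₀ hall n P Qg Lm Dg v hnm hP hL (fun x => ⟨κ, hpP x⟩) hv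
    (lkd_lk hl)

/-- `PBL p`, all primes -/
theorem pbl {p : ℕ} (hp : p.Prime) : H77.INP.PBL p := by
  refine H86.BX.pbl_of hp fun κ m c => ?_
  obtain ⟨N₀, hN₀⟩ := blx hp κ m c
  exact ⟨N₀, fun N hN K _ ζ hζ z hz hzζ D A => blxz (hN₀ N hN K ζ hζ z hz hzζ D.toRD0 A)⟩

end H93.BX
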