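import Pool.Agent.H93.BX.Asm

/-!
# [H93 BX CRD] orders of the groups of words, number of cells; the data with separators

* `ux_le`: the groups of words have order at most `Mx q m`. `cel_le`: the number of cells is at most `Mx q m ^ (#T + #J + n + 2)`.
* `yx`, `rx`: the data with the separators `F` added to the fixed words; `yx_val`, `rx_ok`, `fq_x`.
-/

set_option autoImplicit false

open scoped NumberField
open IsDedekindDomain
open scoped Classical

noncomputable section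

namespace H93.BX

open H63.MA H38.BB H38.BG H57.PC H57.BRA H77.WD H77.WE H62.BL

section card

theorem words_le {α : Type} [Finite α] (S : Set (List α)) (k : ℕ)
    (hS : ∀ w ∈ S, w.length ≤ k) : Nat.card S ≤ (Nat.card α + 1) ^ k := by
  have h1 : Nat.card S ≤ Nat.card (Fin k → Option α) := by
    refine Nat.card_le_card_of_injective (fun (w : S) (i : Fin k) => w.1[i.1]?) fun w v h => ?_
    refine Subtype.ext (List.ext_getElem? fun i => ?_)
    by_cases hi : i < k
    · exact congrFun h ⟨i, hi⟩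
    · have hw := hS w.1 w.2
      have hv := hS v.1 v.2
      rw [List.getElem?_eq_none (by omega), List.getElem?_eq_none (by omega)]
  refine h1.trans (le_of_eq ?_)
  rw [Nat.card_fun, Nat.card_eq_fintype_card (α := Fin k), Fintype.card_fin, Finite.card_option]

variable {q n m : ℕ} {Qg Lm : Type} [Group Qg] [MulAction Qg Lm]

theorem wn_le [Finite Lm] (h2 : Nat.card Lm ≤ m) (hnm : n + 1 ≤ m) (S : Set (Fin (n + 2))) {k : ℕ}
    (hk : k ≤ m + 1) : Nat.card (WN Qg Lm S k).s ≤ ((m + 2) * m + 1) ^ (m + 1) := by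
  have h3 : Nat.card (Lr (Fin (n + 2)) Lm) ≤ (m + 2) * m := by
    have h4 : Nat.card (Lr (Fin (n + 2)) Lm) = (n + 2) * Nat.card Lm := by
      rw [Nat.card_congr (⟨fun a => (a.i, a.l), fun x => ⟨x.1, x.2⟩, fun _ => rfl, fun _ => rfl⟩ :
        Lr (Fin (n + 2)) Lm ≃ Fin (n + 2) × Lm), Nat.card_prod,
        Nat.card_eq_fintype_card (α := Fin (n + 2)), Fintype.card_fin]
    rw [h4]
    exact Nat.mul_le_mul (by omega) h2
  refine (words_le _ k fun w hw => hw.1).trans ?_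
  refine (Nat.pow_le_pow_left (Nat.add_le_add_right h3 1) _).trans ?_
  exact Nat.pow_le_pow_right (Nat.succ_pos _) hk

theorem ux_le [NeZero q] [Finite Qg] [Finite Lm] (h1 : Nat.card Qg ≤ m) (h2 : Nat.card Lm ≤ m)
    (hnm : n + 1 ≤ m) (S : Set (Fin (n + 2))) {k : ℕ} (hk : k ≤ m + 1) :
    Nat.card (UG Qg (Lr (Fin (n + 2)) Lm) (ZMod q) (WN Qg Lm S k)) ≤ Mx q m := by
  rw [ug_card (wn_finite _ _)]
  have h4 := wn_le (Qg := Qg) h2 hnm S hk
  exact Nat.mul_le_mul h1 (Nat.pow_le_pow_right (Nat.pos_of_ne_zero (NeZero.ne q)) ((Nat.sub_le _ _).trans h4))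

theorem mx_le [NeZero q] (m : ℕ) : m ≤ Mx q m :=
  Nat.le_mul_of_pos_right m (Nat.pow_pos (Nat.pos_of_ne_zero (NeZero.ne q)))

theorem fun_card_le {X Y : Type} [Finite X] [Finite Y] {a b : ℕ} (h1 : Nat.card X = a) (h2 : Nat.card Y ≤ b) :
    Nat.card (X → Y) ≤ b ^ a := by
  rw [Nat.card_fun, h1]
  exact Nat.pow_le_pow_left h2 _

end card

variable {K : Type} [Field K] [NumberField K] {Ω : Type} [Field Ω] [Algebra K Ω]
  {p : ℕ} {ζ : K} {D : RD0 K p ζ} {o n : ℕ} {J P Qg Lm : Type} [Group P] [Group Qg] [MulAction Qg Lm]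
  {A : GS D Ω}

theorem cel_le [NeZero o] [Finite P] [Finite Qg] [Finite Lm] [Fintype J] {m : ℕ} (Dg : LG o n P Qg Lm)
    (r : Rd A J P Qg) (h1 : Nat.card P ≤ m) (h2 : Nat.card Lm ≤ m) (hnm : n + 1 ≤ m) :
    Nat.card (Cel Dg r) ≤ Mx o m ^ (r.T.card + (Fintype.card J + (n + 2))) := by
  have hW : Finite (WN Qg Lm (Set.univ : Set (Fin (n + 2))) (n + 1)).s :=
    (wn_finite (Q := Qg) (L := Lm) (Set.univ : Set (Fin (n + 2))) (n + 1)).to_subtype
  have hq : Finite (P ⧸ Dg.f (n + 1)) := Quotient.finite _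
  have hq1 : Nat.card (P ⧸ Dg.f (n + 1)) ≤ m :=
    (Nat.card_le_card_of_surjective _ (QuotientGroup.mk_surjective)).trans h1
  have hw : Nat.card ((WN Qg Lm (Set.univ : Set (Fin (n + 2))) (n + 1)).s → ZMod o) ≤
      o ^ ((m + 2) * m + 1) ^ (m + 1) := by
    rw [Nat.card_fun, Nat.card_zmod]
    exact Nat.pow_le_pow_right (Nat.pos_of_ne_zero (NeZero.ne o)) (wn_le h2 hnm _ (by omega))
  have hT : Nat.card r.T = r.T.card := by rw [Nat.card_eq_fintype_card, Fintype.card_coe]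
  have hJ : Nat.card J = Fintype.card J := Nat.card_eq_fintype_card
  have hN : Nat.card (Fin (n + 2)) = n + 2 := by rw [Nat.card_eq_fintype_card, Fintype.card_fin]
  have hf : Finite ((WN Qg Lm (Set.univ : Set (Fin (n + 2))) (n + 1)).s → ZMod o) := Pi.finite
  have e1 := fun_card_le hT h1
  have e2 := fun_card_le hJ h1
  have e3 := fun_card_le hN hq1
  have e4 := fun_card_le hT hw
  have e5 := fun_card_le hJ hw
  have e6 := fun_card_le hN hw
  unfold Cel Mx
  rw [Nat.card_prod, Nat.card_prod, Nat.card_prod, Nat.card_prod, Nat.card_prod]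
  generalize o ^ ((m + 2) * m + 1) ^ (m + 1) = b at e4 e5 e6 ⊢
  refine (Nat.mul_le_mul e1 (Nat.mul_le_mul e2 (Nat.mul_le_mul e3 (Nat.mul_le_mul e4
    (Nat.mul_le_mul e5 e6))))).trans (le_of_eq ?_)
  rw [mul_pow, pow_add m, pow_add m, pow_add b, pow_add b]
  ring

/-- the data with separators -/
def yx (y : Wy D A J) (F : Finset Gal(Ω/K)) : Wy D A (J ⊕ F) :=
  ⟨y.L, y.Fr, y.M, y.Z, y.wv, Sum.elim y.sj fun σ => σ.1, Sum.elim y.wj fun σ => wdE y.L A y.M y.Z y.Z σ.1⟩

/-- the fixed part with separators -/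
def rx (r : Rd A J P Qg) (F : Finset Gal(Ω/K)) : Rd A (J ⊕ F) P Qg :=
  ⟨r.T, r.lab, r.al, r.phi, r.G, Sum.elim r.H fun _ _ => 1⟩

theorem yx_val [IsAlgClosure K Ω] (hp : p.Prime) (hζ : IsPrimitiveRoot ζ p) {y : Wy D A J} (hy : y.Val)
    (F : Finset Gal(Ω/K)) : (yx y F).Val where
  v := hy.v
  j H _ _ hH hM φ hφ j := by
    rcases j with j | σ
    · exact hy.j H hH hM φ hφ j
    · exact wdE_specU hp hζ y.L A y.M y.Z y.Z σ.1 H hH hM φ (by
        rw [Finset.union_self]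
        exact hφ)

theorem rx_ok {r : Rd A J P Qg} {L : LDs D Ω} {Dg : LG o n P Qg Lm} {Z : Finset (Pl K)} (hr : r.Ok L Dg Z)
    (F : Finset Gal(Ω/K)) : (rx r F).Ok L Dg Z where
  sub := hr.sub
  out := hr.out
  one := hr.one
  hon := hr.hon
  sur := hr.sur
  lab := hr.lab
  al := hr.al
  G := hr.G
  H j x := by
    rcases j with j | σ
    · exact hr.H j x
    · exact le_of_eq norm_one

theorem thq_x (r : Rd A J P Qg) (F : Finset Gal(Ω/K)) (v : Vd n P Qg Lm) (x : Fin (n + 2) → Pl K) :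
    thq (rx r F) v x = thq r v x := rfl

theorem fq_x [Fintype J] (y : Wy D A J) (r : Rd A J P Qg) (F : Finset Gal(Ω/K)) (v : Vd n P Qg Lm)
    (x : Fin (n + 2) → Pl K) : Fq (yx y F) (rx r F) v x = Fq y r v x := by
  unfold Fq
  rw [Fintype.prod_sum_type]
  have h1 : ∏ σ : F, (rx r F).H (Sum.inr σ) (thq (rx r F) v x ((yx y F).wj (Sum.inr σ))) = 1 :=
    Finset.prod_eq_one fun _ _ => rfl
  rw [h1, mul_one]
  rfl

end H93.BX
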