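import Pool.Agent.H93.BX.Crd
import Pool.Agent.H62.BM.Cbl
import Pool.Agent.H35.NS2.Fin

/-!
# [H93 BX BLX] THE BOX LEMMA BLX

* `gprp`: the black box `GPR` of order `p ^ κ`, all primes. `gpcp`: the black box `GPC` of CORE.
* `blx_of`: `BLX` from `GPC`. `blx`: BLX for all fields with enough roots of unity, all primes.
-/

set_option autoImplicit false

open scoped NumberField
open IsDedekindDomain
open scoped Classical

noncomputable section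

namespace H93.BX

open H63.MA H38.ML H38.BB H38.BG H57.PC H57.BRA H77.WD H77.WE H77.GL H57.AN H35.UB H24.RK H57.GP H62.BL

/-- a root of unity of smaller order -/
theorem root_le {K : Type} [Field K] {p M M' : ℕ} (hp : p.Prime) {z : K}
    (hz : IsPrimitiveRoot z (p ^ M)) (h : M' ≤ M) : IsPrimitiveRoot (z ^ (p ^ (M - M'))) (p ^ M') := by
  refine hz.pow (pow_pos hp.pos _) ?_
  rw [← pow_add]
  congr 1
  omega

/-- `GPR` of order `p ^ κ` -/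
theorem gprp {p κ M : ℕ} (hp : p.Prime) (hκ : 2 ≤ κ) (hM : κ < M) {K : IntermediateField ℚ QBar}
    [NumberField K] {ζ z : K} (hζ : IsPrimitiveRoot ζ p) (hz : IsPrimitiveRoot z (p ^ M)) (D : RD0 K p ζ) :
    GPR D QBar (p ^ κ) := by
  have h1 := root_le hp hz hM.le
  by_cases h2 : p = 2
  · subst h2
    exact H57.GP.Q.E.gprx H93.G2.smx2 hp hκ hζ h1
      ⟨H51.PF.mone_of hp (by omega) hz, H57.GP.Q.E.mone_pow hp hM hz⟩ D
  · exact H57.GP.Q.gprq hp h2 (by omega) hζ h1 D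

/-- the black box of CORE -/
theorem gpcp {p κ M b : ℕ} (hp : p.Prime) (hκ : 1 ≤ κ) (hM : κ + (b + 1) < M) {K : IntermediateField ℚ QBar}
    [NumberField K] {ζ z : K} (hζ : IsPrimitiveRoot ζ p) (hz : IsPrimitiveRoot z (p ^ M)) (D : RD0 K p ζ) :
    H62.BM.GPC D QBar (p ^ κ) b := by
  obtain ⟨k, rfl⟩ : ∃ k, κ = k + 1 := ⟨κ - 1, by omega⟩
  refine H62.BM.gbc D QBar ⟨hp, k, rfl⟩ b (b + 1)
    ((Nat.lt_pow_self hp.one_lt).trans_le (Nat.pow_le_pow_right hp.pos (by omega))) ?_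
  rw [← pow_add]
  exact gprp hp (by omega) hM hζ hz D

section core

variable {K : Type} [Field K] [NumberField K] {Ω : Type} [Field Ω] [Algebra K Ω] [IsAlgClosure K Ω]
  {p : ℕ} {ζ : K} {D : RD0 K p ζ}

/-- BLX from the black box `GPC` -/
theorem blx_of (hp : p.Prime) (hζ : IsPrimitiveRoot ζ p) {κ m N : ℕ} {z : K} (hκ : 1 ≤ κ)
    (hz : IsPrimitiveRoot z (p ^ (N + 1))) (hzζ : z ^ p ^ N = ζ)
    (hN : 2 * κ + Mx (p ^ κ) m + 3 ≤ N) (hG : H62.BM.GPC D Ω (p ^ κ) (Mx (p ^ κ) m ^ (2 ^ m))) (A : GS D Ω)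
    (c : ℕ) : BLX D Ω A κ m c N z := by
  intro C₁ A₁ C' ε hε
  have hne : NeZero (p ^ κ) := ⟨pow_ne_zero κ hp.ne_zero⟩
  obtain ⟨k, hk⟩ : ∃ k, κ = k + 1 := ⟨κ - 1, by omega⟩
  have hp2 : MOne p K := H51.PF.mone_of hp (by omega) hz
  obtain ⟨Q⟩ := exists_DP K Ω
  obtain ⟨L₁⟩ := exists_LDs Ω hp hζ D
  obtain ⟨F, hF⟩ := H77.WD.sep hp hp2 hζ D L₁ Q (Mx (p ^ κ) m)
  obtain ⟨Y₂, hY₂⟩ := H62.BM.cel_pow (Mx (p ^ κ) m) C₁ (c + F.card + (m + 1))
  obtain ⟨Y₁, hY₁⟩ := H62.BM.cbl (b := Mx (p ^ κ) m ^ (2 ^ m)) hζ ⟨hp, k, by rw [hk]⟩ hG m C₁ A₁ C'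
    (Mx (p ^ κ) m * C₁ + 1) ε hε
  refine ⟨max 3 (max Y₁ Y₂), le_max_left _ _, ?_⟩
  intro Y hY J _ y hJ hval hM hnl hgl hout Z₀ hZ₀ hall n P Qg Lm _ _ _ _ _ Dg v hnm hP hL hpP hv hl ι I r h lo hi hR hh hlh
  have hY1 : Y₁ ≤ Y := (le_max_left _ _).trans ((le_max_right _ _).trans hY)
  have hY2 : Y₂ ≤ Y := (le_max_right _ _).trans ((le_max_right _ _).trans hY)
  have hm1 : 1 ≤ m := by omega
  have hFQ : Finite Qg := Finite.of_surjective Dg.pi Dg.sur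
  have hQ : IsPGroup p Qg := hpP.of_surjective Dg.pi Dg.sur
  have hcQ : Nat.card Qg ≤ m := (Nat.card_le_card_of_surjective _ Dg.sur).trans hP
  have hMx : m ≤ Mx (p ^ κ) m := mx_le m
  have hcm : Nat.card (UGm (p ^ κ) n Qg Lm) ≤ Mx (p ^ κ) m := ux_le hcQ hL hnm _ (by omega)
  have hcd : Nat.card (UGd (p ^ κ) n Qg Lm) ≤ Mx (p ^ κ) m := ux_le hcQ hL hnm _ (by omega)
  have hfd : Finite (UGd (p ^ κ) n Qg Lm) := fin_ugd
  have hM1 : 1 ≤ Mx (p ^ κ) m := hm1.trans hMx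
  -- the root of unity of one order less
  obtain ⟨N', rfl⟩ : ∃ N', N = N' + 1 := ⟨N - 1, by omega⟩
  have hz' : IsPrimitiveRoot (z ^ p) (p ^ (N' + 1)) := by
    have h1 := root_le hp hz (show N' + 1 ≤ N' + 1 + 1 by omega)
    have h2 : N' + 1 + 1 - (N' + 1) = 1 := by omega
    rwa [h2, pow_one] at h1
  have hzζ' : (z ^ p) ^ p ^ N' = ζ := by rw [← pow_mul, ← pow_succ', hzζ]
  have hnl' : NL (N' + 1) (z ^ p) y.L := by
    have h1 := hnl.mono (show N' + 1 ≤ N' + 1 + 1 by omega)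
    have h2 : N' + 1 + 1 - (N' + 1) = 1 := by omega
    rwa [h2, pow_one] at h1
  have hrts : Rts p κ y.M N' (z ^ p) y.L := by
    refine ⟨hz', hzζ', hnl', ⟨hp2, H57.GP.Q.E.mone_pow hp (by omega) hz⟩, Mx (p ^ κ) m + κ + 2, by omega,
      by omega, by omega, ?_⟩
    · rw [hM]
      exact (Nat.lt_pow_self hp.one_lt).le.trans (Nat.pow_le_pow_right hp.pos (by omega))
  have hyok : (yx y F).Ok Q P Qg Lm κ n N' (z ^ p) := {
    val := yx_val hp hζ hval F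
    sep := fun H _ _ hH hc φ φ' h1 h2 h3 => hF.2 H hH (by rw [← hM]; exact hc) φ φ' h1 h2 fun δ hδ =>
      h3 (Sum.inr ⟨δ, hδ⟩)
    rts := hrts
    out := hout
    cP := by
      change Nat.card P ≤ y.M
      rw [hM]
      exact hP.trans hMx
    cQ := by
      change Nat.card Qg ≤ y.M
      rw [hM]
      exact hcQ.trans hMx
    cm := by
      change _ ≤ y.M
      rw [hM]
      exact hcm
    cd := by
      change _ ≤ y.M
      rw [hM]
      exact hcd }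
  have hcard : Nat.card ((Fin (n + 1) → Bool) → UGd (p ^ κ) n Qg Lm) ≤ Mx (p ^ κ) m ^ (2 ^ m) := by
    rw [Nat.card_fun, Nat.card_fun, Nat.card_eq_fintype_card (α := Bool), Fintype.card_bool,
      Nat.card_eq_fintype_card (α := Fin (n + 1)), Fintype.card_fin]
    calc Nat.card (UGd (p ^ κ) n Qg Lm) ^ (2 ^ (n + 1)) ≤ Mx (p ^ κ) m ^ (2 ^ (n + 1)) :=
          Nat.pow_le_pow_left hcd _
      _ ≤ Mx (p ^ κ) m ^ (2 ^ m) :=
          Nat.pow_le_pow_right hM1 (Nat.pow_le_pow_right (by norm_num) hnm)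
  have hcyy : (cyy (yx y F)).Ok (p ^ κ) n Qg Lm := by
    refine ⟨hval.v, hout, ?_⟩
    change _ ≤ y.M
    rw [hM]
    exact hcd
  have hmain := hY₁ Y hY1 A n Qg Lm (cyy (yx y F)) (cvv Dg v) (by omega) hcyy
    (fun c => kp_act Dg (v.lam 0) (v.f 0) (hv.f 0) c) hQ hcard hgl Z₀ hZ₀ hall ι I
    (fun i => cmm (yx y F) Dg (rx (r i) F) v (h i)) lo hi (fun i hi' => ⟨cm_ok hp hp2 hζ Q (yx y F) hyok hQ
      (rx_ok (hR.ok i hi') F) hv hl (hh i hi'), ?_⟩) ⟨hR.nr, hR.card, hR.mul⟩ hlh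
  · refine le_trans (le_of_eq ?_) hmain
    refine Finset.sum_congr rfl fun i _ => ?_
    refine congrArg (fun t => (nr (r i).T)⁻¹ * (∏ k, lo i k)⁻¹ * ‖t‖) (Finset.sum_congr rfl fun x _ => ?_)
    change _ = Fq (yx y F) (rx (r i) F) v x * ∏ k, h i k x
    rw [fq_x]
  · refine hY₂ Y hY2 _ (r i).T.card ?_ (hR.card i hi')
    refine (cel_le (m := m) Dg (rx (r i) F) hP hL hnm).trans ?_
    refine Nat.pow_le_pow_right hM1 ?_
    rw [Fintype.card_sum, Fintype.card_coe]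
    change (r i).T.card + _ ≤ _
    omega

end core

/-- order `p ^ 0`: nothing to prove -/
theorem blx_zero {K : Type} [Field K] [NumberField K] {p : ℕ} {ζ : K} (D : RD0 K p ζ) (Ω : Type) [Field Ω]
    [Algebra K Ω] (A : GS D Ω) (m c N : ℕ) (z : K) : BLX D Ω A 0 m c N z := by
  intro C₁ A₁ C' ε hε
  refine ⟨3, le_rfl, ?_⟩
  intro Y hY J _ y hJ hval hM hnl hgl hout Z₀ hZ₀ hall n P Qg Lm _ _ _ _ _ Dg v hnm hP hL hpP hv hl
  exfalso
  obtain ⟨τ, u, hu⟩ := hl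
  have h1 : Subsingleton (ZMod (p ^ 0)) := by
    rw [pow_zero]
    exact inferInstanceAs (Subsingleton (Fin 1))
  exact hu (Subsingleton.elim _ _)

/-- THE BOX LEMMA BLX -/
theorem blx {p : ℕ} (hp : p.Prime) (κ m c : ℕ) : ∃ N₀ : ℕ, ∀ N : ℕ, N₀ ≤ N →
    ∀ (K : IntermediateField ℚ QBar) [NumberField K] (ζ : K), IsPrimitiveRoot ζ p →
    ∀ z : K, IsPrimitiveRoot z (p ^ (N + 1)) → z ^ p ^ N = ζ → ∀ (D : RD0 K p ζ) (A : GS D QBar),
    BLX D QBar A κ m c N z := by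
  refine ⟨2 * κ + Mx (p ^ κ) m + Mx (p ^ κ) m ^ (2 ^ m) + 3, fun N hN K _ ζ hζ z hz hzζ D A => ?_⟩
  rcases Nat.eq_zero_or_pos κ with h0 | hκ
  · subst h0
    exact blx_zero D QBar A m c N z
  · exact blx_of hp hζ hκ hz hzζ (by omega) (gpcp (M := N + 1) hp hκ (by omega) hζ hz D) A c

end H93.BX
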