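import Pool.Agent.H93.BX.Rec
import Pool.Agent.H62.BL.Phs
import Pool.Agent.H62.BM.PhsE

/-!
# [H93 BX PHS] the phase of a box: port of H62/BL/Phs, values in `ℤ/q`
-/

set_option autoImplicit false

open scoped NumberField
open IsDedekindDomain
open scoped Classical

noncomputable section

namespace H93.BX

open H63.MA H38.BB H38.BG H57.PC H57.BRA H77.WD H77.WE H62.BL

theorem ep_addo {o : ℕ} [NeZero o] (a b : ZMod o) : ep o (a + b) = ep o a * ep o b := by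
  rw [rayc_std, rayc_std, rayc_std, AddChar.map_add_eq_mul]

private theorem ph_conj {o : ℕ} [NeZero o] (x : ZMod o) : (starRingEnd ℂ) (ep o x) = ep o (-x) := by
  have h1 : ep o x * ep o (-x) = 1 := by
    rw [← ep_addo, add_neg_cancel, ep_zero]
  rw [← Complex.inv_eq_conj (ep_norm o x)]
  exact inv_eq_of_mul_eq_one_right h1

private theorem ph_sg {m : ℕ} {R : Type} [CommRing R] (e : Fin m → Bool) :
    sg R e = (-1) ^ (Finset.univ.filter fun k => e k = false).card := by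
  unfold sg
  rw [Finset.prod_ite, Finset.prod_const_one, one_mul, Finset.prod_const]
  simp only [Bool.not_eq_true]

theorem cj_epo {m o : ℕ} [NeZero o] (e : Fin m → Bool) (x : ZMod o) :
    cj e (ep o x) = ep o (sg (ZMod o) e * x) := by
  unfold cj
  rw [ph_sg]
  split_ifs with h
  · rw [h.neg_one_pow, one_mul]
  · rw [Nat.not_even_iff_odd] at h
    rw [h.neg_one_pow, neg_one_mul]
    exact ph_conj x

variable {K : Type} [Field K] [NumberField K] {Ω : Type} [Field Ω] [Algebra K Ω]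
  {p : ℕ} {ζ : K} {D : RD0 K p ζ} {o n : ℕ} {J P Qg Lm : Type} [Group P] [Group Qg] [MulAction Qg Lm]
  {A : GS D Ω}

theorem ph_prod {ι : Type} {o : ℕ} [NeZero o] (s : Finset ι) (f : ι → ZMod o) :
    ∏ i ∈ s, ep o (f i) = ep o (∑ i ∈ s, f i) := by
  induction s using Finset.induction_on with
  | empty => rw [Finset.prod_empty, Finset.sum_empty, ep_zero]
  | insert i s hi ih => rw [Finset.prod_insert hi, Finset.sum_insert hi, ep_addo, ih]

/-- the value modulo the last layer -/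
theorem ph_mem (y : Wy D A J) {Dg : LG o n P Qg Lm} {r : Rd A J P Qg} {v : Vd n P Qg Lm}
    {q q1 : Fin (n + 2) → Pl K} (hc : cel y Dg r v q = cel y Dg r v q1) (k : Fin (n + 2)) :
    thq r v q (y.wv (q k)) * (thq r v q1 (y.wv (q1 k)))⁻¹ ∈ Dg.f (n + 1) := by
  have h1 := cel_q y Dg r v hc k
  rw [QuotientGroup.eq] at h1
  obtain ⟨x, hx⟩ : ∃ x, x = thq r v q (y.wv (q k)) := ⟨_, rfl⟩
  obtain ⟨c, hcc⟩ : ∃ c, c = thq r v q1 (y.wv (q1 k)) := ⟨_, rfl⟩
  rw [← hx, ← hcc] at h1 ⊢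
  have h2 := Dg.fl.com 0 (n + 1) x (by rw [Dg.fl.top]; exact Subgroup.mem_top x) _ h1
  rw [zero_add] at h2
  have h3 := (Dg.f (n + 1)).inv_mem ((Dg.f (n + 1)).mul_mem h2 h1)
  have h4 : (x * (x⁻¹ * c) * x⁻¹ * (x⁻¹ * c)⁻¹ * (x⁻¹ * c))⁻¹ = x * c⁻¹ := by group
  rwa [h4] at h3

theorem fq_cell [Fintype J] [NeZero o] (y : Wy D A J) {Dg : LG o n P Qg Lm} {r : Rd A J P Qg} {v : Vd n P Qg Lm}
    (hv : v.Ok Dg) {q q1 : Fin (n + 2) → Pl K} (hq : Adm r.T q) (hq1 : Adm r.T q1)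
    (hc : cel y Dg r v q = cel y Dg r v q1) :
    Fq y r v q = Fq y r v q1 *
      ep o (∑ k, Dg.ch (v.lam k) (thq r v q (y.wv (q k)) * (thq r v q1 (y.wv (q1 k)))⁻¹)) := by
  unfold Fq
  rw [if_pos hq, if_pos hq1, ← ph_prod, mul_assoc, mul_assoc, mul_assoc, ← Finset.prod_mul_distrib]
  congr 1
  · refine Finset.prod_congr rfl fun w hw => ?_
    rw [cel_T y Dg r v hc w hw]
  congr 1
  · refine Finset.prod_congr rfl fun j _ => ?_
    rw [cel_J y Dg r v hc j]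
  · refine Finset.prod_congr rfl fun k _ => ?_
    have h1 := hv.eq k _ (ph_mem y hc k) (thq r v q1 (y.wv (q1 k)))
    rw [inv_mul_cancel_right] at h1
    rw [h1, mul_comm]

theorem phs [IsAlgClosure K Ω] [Finite Qg] [Fintype Lm] [Fintype J] (hp : p.Prime) (hp2 : MOne p K)
    (hζ : IsPrimitiveRoot ζ p) (Q : DP K Ω) {κ N : ℕ} {z : K} (y : Wy D A J) {Dg : LG (p ^ κ) n P Qg Lm}
    (hy : y.Ok Q P Qg Lm κ n N z) (hQ : IsPGroup p Qg) {r : Rd A J P Qg} {v : Vd n P Qg Lm}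
    (hr : r.Ok y.L Dg y.Z) (hv : v.Ok Dg) {q0 q1 : Fin (n + 2) → Pl K} (h : ND r.T q0 q1)
    (hq : ∀ k, q0 k ∈ y.Z ∧ q1 k ∈ y.Z)
    (hc : ∀ e : Fin (n + 2) → Bool, cel y Dg r v (vt q0 q1 e) = cel y Dg r v q1)
    (hf : ∀ k, Dg.pi (thq r v q1 (y.wv (q1 k))) = v.f k) :
    ∏ e : Fin (n + 2) → Bool, cj e (Fq y r v (vt q0 q1 e)) =
      ((‖Fq y r v q1‖ ^ (2 ^ (n + 2)) : ℝ) : ℂ) *
        ep (p ^ κ) (Dg.kp (v.lam 0) (relq Dg r v q0 q1 (y.wv (q1 0))).c -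
          Dg.kp (v.lam 0) (relq Dg r v q0 q1 (y.wv (q0 0))).c) := by
  have hne : NeZero (p ^ κ) := ⟨pow_ne_zero κ hp.ne_zero⟩
  obtain ⟨z, hz'⟩ : ∃ z : Fin (n + 2) → Bool → FW A, z = fun k b => y.wv (if b then q1 k else q0 k) := ⟨_, rfl⟩
  obtain ⟨c, hc'⟩ : ∃ c : Fin (n + 2) → P, c = fun k => thq r v q1 (y.wv (q1 k)) := ⟨_, rfl⟩
  have h1 : ∀ e : Fin (n + 2) → Bool, cj e (Fq y r v (vt q0 q1 e)) = cj e (Fq y r v q1) *
      ep (p ^ κ) (sg (ZMod (p ^ κ)) e * ∑ k, Dg.ch (v.lam k) (cub (kdq A id q0 q1) r.bs v.g (z k (e k)) e * (c k)⁻¹)) := by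
    intro e
    have h5 : ∑ k, Dg.ch (v.lam k) (thq r v (vt q0 q1 e) (y.wv (vt q0 q1 e k)) *
        (thq r v q1 (y.wv (q1 k)))⁻¹) =
        ∑ k, Dg.ch (v.lam k) (cub (kdq A id q0 q1) r.bs v.g (z k (e k)) e * (c k)⁻¹) := by
      refine Finset.sum_congr rfl fun k _ => ?_
      rw [cub_th r v hr.one h, hz', hc']
      rfl
    rw [fq_cell y hv (vt_adm h e) h.2.1 (hc e), cj_mul, cj_epo, h5]
  have hface : ∀ (k : Fin (n + 2)) (b : Bool),
      ∑ e' : Fin (n + 1) → Bool, sg (ZMod (p ^ κ)) e' *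
        Dg.ch (v.lam k) (cub (kdq A id q0 q1) r.bs v.g (z k b) (k.insertNth b e') * (c k)⁻¹) =
      Dg.ch (v.lam k) (tp (n + 1) (fun e => cub (kdq A id q0 q1) r.bs v.g (z k b) (k.insertNth b e))) := by
    intro k b
    refine (tp_sum (Dg.f (n + 1)) (Dg.ch (v.lam k)) (Dg.ch_add (v.lam k)) (c := c k) fun e' => ?_).symm
    have h2 := ph_mem y (hc (k.insertNth b e')) k
    have h3 : vt q0 q1 (k.insertNth b e') k = if b then q1 k else q0 k := by
      unfold vt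
      rw [Fin.insertNth_apply_same]
    rw [h3] at h2
    rw [cub_th r v hr.one h, hz', hc']
    exact h2
  have hph := H62.BM.phase Dg (kdq A id q0 q1) r.bs v.g v.lam hv.g z (by
    rw [hz']
    exact rec hp hp2 hζ Q y hy hQ hr hv h hq hc hf)
  rw [Finset.prod_congr rfl fun e _ => h1 e, Finset.prod_mul_distrib, cj_prod, ph_prod,
    sum_face (fun k b e => Dg.ch (v.lam k) (cub (kdq A id q0 q1) r.bs v.g (z k b) e * (c k)⁻¹))]
  congr 2
  have h4 : ∑ k : Fin (n + 2), ∑ b : Bool, (if b then (1 : ZMod (p ^ κ)) else -1) *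
        ∑ e' : Fin (n + 1) → Bool, sg (ZMod (p ^ κ)) e' *
        Dg.ch (v.lam k) (cub (kdq A id q0 q1) r.bs v.g (z k b) (k.insertNth b e') * (c k)⁻¹) =
      ∑ k : Fin (n + 2), ∑ b : Bool, (if b then (1 : ZMod (p ^ κ)) else -1) *
        Dg.ch (v.lam k) (tp (n + 1) (fun e => cub (kdq A id q0 q1) r.bs v.g (z k b) (k.insertNth b e))) :=
    Finset.sum_congr rfl fun k _ => Finset.sum_congr rfl fun b _ => by rw [hface k b]
  rw [h4, hph, Fintype.sum_bool, hz']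
  simp only [if_true, Bool.false_eq_true, if_false, one_mul, neg_one_mul, ← sub_eq_add_neg]
  rfl

end H93.BX
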