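import Pool.Agent.H93.BX.Phs
import Pool.Agent.H62.BM.Cdf

/-!
# [H93 BX ASM] the hypotheses of CORE (H62/BM/Cdf) for the data of BLX

`cyy`, `cvv`, `cmm`: the data. `cm_ok`: (H1) = `clo`, (H2) = `hn`, (H3) = `phs`.
-/

set_option autoImplicit false

open scoped NumberField
open IsDedekindDomain
open scoped Classical

noncomputable section

namespace H93.BX

open H63.MA H38.BB H38.BG H57.PC H57.BRA H77.WD H77.WE H62.BL

variable {K : Type} [Field K] [NumberField K] {Ω : Type} [Field Ω] [Algebra K Ω]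
  {p : ℕ} {ζ : K} {D : RD0 K p ζ} {o n : ℕ} {J P Qg Lm : Type} [Group P] [Group Qg] [MulAction Qg Lm]
  {A : GS D Ω}

/-- places and words -/
def cyy (y : Wy D A J) : H62.BM.Cy D A := ⟨y.L, y.Fr, y.M, y.Z, y.wv⟩

/-- the functional -/
def cvv (Dg : LG o n P Qg Lm) (v : Vd n P Qg Lm) : H62.BM.Cv o n Qg Lm := ⟨v.lam, v.f 0, Dg.kw (v.lam 0)⟩

/-- a member -/
def cmm [Fintype J] [Fintype Lm] (y : Wy D A J) (Dg : LG o n P Qg Lm) (r : Rd A J P Qg) (v : Vd n P Qg Lm)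
    (h : Fin (n + 2) → (Fin (n + 2) → Pl K) → ℂ) : H62.BM.Cm K Ω n Qg :=
  ⟨r.T, r.phi, Cel Dg r, cel y Dg r v, Fq y r v, h, fun q1 a => ((‖Fq y r v q1‖ ^ (2 ^ (n + 2)) : ℝ) : ℂ) *
    ep o (Dg.kp (v.lam 0) (reld Dg r v a (Fin.tail q1) (y.wv (q1 0))).c)⟩

theorem hs0 : (WN Qg Lm {i : Fin (n + 2) | i ≠ 0} (n + 1)).s ⊆ (WN Qg Lm Set.univ (n + 1)).s :=
  fun _ hu => ⟨hu.1, hu.2.1, fun _ _ => trivial⟩

theorem fq_le [Fintype J] (y : Wy D A J) {Dg : LG o n P Qg Lm} {r : Rd A J P Qg} {v : Vd n P Qg Lm}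
    (hG : ∀ w x, ‖r.G w x‖ ≤ 1) (hH : ∀ j x, ‖r.H j x‖ ≤ 1) (hv : v.Ok Dg) (q : Fin (n + 2) → Pl K) :
    ‖Fq y r v q‖ ≤ 1 := by
  unfold Fq
  split_ifs
  · rw [norm_mul, norm_mul, norm_prod, norm_prod, norm_prod]
    refine mul_le_one₀ (mul_le_one₀ ?_ (Finset.prod_nonneg fun _ _ => norm_nonneg _) ?_)
      (Finset.prod_nonneg fun _ _ => norm_nonneg _) ?_
    · exact Finset.prod_le_one (fun _ _ => norm_nonneg _) fun w _ => hG w _
    · exact Finset.prod_le_one (fun _ _ => norm_nonneg _) fun j _ => hH j _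
    · exact Finset.prod_le_one (fun _ _ => norm_nonneg _) fun k _ => hv.G k _
  · rw [norm_zero]
    exact zero_le_one

/-- the relative evaluations are the same -/
theorem relc_reld [Fintype J] [Fintype Lm] (y : Wy D A J) (Dg : LG o n P Qg Lm) (r : Rd A J P Qg)
    (hr : r.Ok y.L Dg y.Z) (v : Vd n P Qg Lm) (h : Fin (n + 2) → (Fin (n + 2) → Pl K) → ℂ)
    (a b : Fin (n + 1) → Pl K) :
    H62.BM.relc (cyy y) (cmm y Dg r v h) (cvv Dg v) a b = reld Dg r v a b := by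
  have h1 : (fun x => hat y.L A r.phi (FreeGroup.of x)) = fun x => Dg.pi (r.bs x) := by
    funext x
    rcases x with w | i
    · rw [hat_inl, hr.lab]
      rfl
    · rw [hat_inr, hr.al]
      rfl
  unfold H62.BM.relc reld cyy cmm cvv
  simp only [h1]

theorem hc_hd [Fintype J] [Fintype Lm] (y : Wy D A J) (Dg : LG o n P Qg Lm) (r : Rd A J P Qg)
    (hr : r.Ok y.L Dg y.Z) (v : Vd n P Qg Lm) (h : Fin (n + 2) → (Fin (n + 2) → Pl K) → ℂ)
    (a b : Fin (n + 1) → Pl K) (Ψ : Gal(Ω/K) →* UGd o n Qg Lm) :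
    H62.BM.Hc (cyy y) (cmm y Dg r v h) (cvv Dg v) a b Ψ ↔ Hd y Dg r v a b Ψ := by
  unfold H62.BM.Hc Hd
  rw [relc_reld y Dg r hr]
  rfl

theorem hd_ex [IsAlgClosure K Ω] [Finite Qg] [Finite Lm] (hp : p.Prime) (hp2 : MOne p K)
    (hζ : IsPrimitiveRoot ζ p) (Q : DP K Ω) {κ N : ℕ} {z : K} (y : Wy D A J)
    {Dg : LG (p ^ κ) n P Qg Lm} (hy : y.Ok Q P Qg Lm κ n N z) (hQ : IsPGroup p Qg) {r : Rd A J P Qg}
    {v : Vd n P Qg Lm} (hr : r.Ok y.L Dg y.Z) (hv : v.Ok Dg) {q0 q1 : Fin (n + 2) → Pl K} (h : ND r.T q0 q1)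
    (hq : ∀ k, q0 k ∈ y.Z ∧ q1 k ∈ y.Z)
    (hc : ∀ e : Fin (n + 2) → Bool, cel y Dg r v (vt q0 q1 e) = cel y Dg r v q1)
    (hf : ∀ k, Dg.pi (thq r v q1 (y.wv (q1 k))) = v.f k) :
    ∃ Ψ, Hd y Dg r v (Fin.tail q0) (Fin.tail q1) Ψ := by
  obtain ⟨Ψ, h1, h2, -⟩ := hn hp hp2 hζ Q y hy hQ hr hv h hq hc hf
  have h3 : hat y.L A ((trh hs0).comp Ψ) = reld Dg r v (Fin.tail q0) (Fin.tail q1) := by
    rw [hat_comp, h2]
    refine MonoidHom.ext fun z => ?_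
    exact relq_trh r v hr.one h hs0 z
  refine ⟨(trh hs0).comp Ψ, ⟨?_, h3⟩⟩
  have h4 := h1.comp (trh (hs0 (n := n) (Qg := Qg) (Lm := Lm)) (R := ZMod (p ^ κ)))
  refine ⟨h4.1, fun w hw hz => ?_⟩
  rw [← hat_inl, h3]
  simp only [Finset.mem_union, Finset.mem_image, Finset.mem_univ, true_and, not_or, not_exists] at hz
  obtain ⟨⟨hz1, hz2⟩, hz3⟩ := hz
  have h5 : kdq A Fin.succ (Fin.tail q0) (Fin.tail q1) (Sum.inl w) = (none : Option (Fin (n + 2) × Bool)) := by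
    change (if h : ∃ k, Fin.tail q0 k = w then some (Fin.succ h.choose, false) else
      if h : ∃ k, Fin.tail q1 k = w then some (Fin.succ h.choose, true) else none) = none
    rw [dif_neg (by rintro ⟨k, hk⟩; exact hz2 k hk), dif_neg (by rintro ⟨k, hk⟩; exact hz3 k hk)]
  unfold reld rel unh
  rw [FreeGroup.lift_apply_of, h5]
  have h6 : Dg.pi (r.bs (Sum.inl w)) = 1 := by
    have h7 : r.bs (Sum.inl w) = r.lab w := rfl
    rw [h7, hr.one w hz1, map_one]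
  simp only [h6]
  rfl

/-- the lower coefficients at the word of the variable `0` vanish -/
theorem lc0 (y : Wy D A J) {Dg : LG o n P Qg Lm} {r : Rd A J P Qg} {v : Vd n P Qg Lm}
    (hr : r.Ok y.L Dg y.Z) (hv : v.Ok Dg) {q0 q1 : Fin (n + 2) → Pl K} (h : ND r.T q0 q1)
    (hc : ∀ e : Fin (n + 2) → Bool, cel y Dg r v (vt q0 q1 e) = cel y Dg r v q1)
    (hf : ∀ k, Dg.pi (thq r v q1 (y.wv (q1 k))) = v.f k) :
    (reld Dg r v (Fin.tail q0) (Fin.tail q1) (y.wv (q0 0))).q = v.f 0 ∧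
      ∀ u, u ≠ [] → u.length ≤ n → (reld Dg r v (Fin.tail q0) (Fin.tail q1) (y.wv (q0 0))).c u = 0 := by
  have h2 : reld Dg r v (Fin.tail q0) (Fin.tail q1) (y.wv (q0 0)) = trh hs0 (relq Dg r v q0 q1 (y.wv (q0 0))) :=
    (relq_trh r v hr.one h hs0 _).symm
  rw [h2]
  constructor
  · have h3 := rq_fix y hr hv h hc hf 0 false
    simp only [Bool.false_eq_true, if_false] at h3
    exact h3
  · intro u hu hl
    change tr (WN Qg Lm {i : Fin (n + 2) | i ≠ 0} (n + 1)) (relq Dg r v q0 q1 (y.wv (q0 0))).c u = 0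
    unfold tr
    split_ifs with h4
    · have h5 := rq_q y Dg r v hr.one h hc 0 false u hu hl h4.2.2
      simp only [Bool.false_eq_true, if_false] at h5
      exact h5
    · rfl

/-- the Frobenius elements of the variables are right if the summand does not vanish -/
theorem fq_f [Fintype J] (y : Wy D A J) {Dg : LG o n P Qg Lm} {r : Rd A J P Qg} {v : Vd n P Qg Lm} (hv : v.Ok Dg)
    {q : Fin (n + 2) → Pl K} (hF : Fq y r v q ≠ 0) (k : Fin (n + 2)) :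
    Dg.pi (thq r v q (y.wv (q k))) = v.f k := by
  refine hv.sup k _ fun h0 => hF ?_
  unfold Fq
  split_ifs
  · rw [Finset.prod_eq_zero (Finset.mem_univ k) h0, mul_zero]
  · rfl

theorem cel_fin [Finite P] [Finite Qg] [Finite Lm] [Finite J] [NeZero o] (Dg : LG o n P Qg Lm)
    (r : Rd A J P Qg) : Finite (Cel Dg r) := by
  have hW : Finite (WN Qg Lm (Set.univ : Set (Fin (n + 2))) (n + 1)).s :=
    (wn_finite (Q := Qg) (L := Lm) (Set.univ : Set (Fin (n + 2))) (n + 1)).to_subtype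
  have hf : Finite ((WN Qg Lm (Set.univ : Set (Fin (n + 2))) (n + 1)).s → ZMod o) := Pi.finite
  have hq : Finite (P ⧸ Dg.f (n + 1)) := Quotient.finite _
  infer_instance

theorem cm_ok [IsAlgClosure K Ω] [Finite P] [Finite Qg] [Fintype Lm] [Fintype J] (hp : p.Prime) (hp2 : MOne p K)
    (hζ : IsPrimitiveRoot ζ p) (Q : DP K Ω) {κ N : ℕ} {z : K} (y : Wy D A J)
    {Dg : LG (p ^ κ) n P Qg Lm} (hy : y.Ok Q P Qg Lm κ n N z) (hQ : IsPGroup p Qg) {r : Rd A J P Qg}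
    {v : Vd n P Qg Lm} (hr : r.Ok y.L Dg y.Z) (hv : v.Ok Dg) (hl : Lk Dg v.lam)
    {h : Fin (n + 2) → (Fin (n + 2) → Pl K) → ℂ} (hh : Mis h) :
    (cmm y Dg r v h).Ok (cyy y) (cvv Dg v) := by
  have hne : NeZero (p ^ κ) := ⟨pow_ne_zero κ hp.ne_zero⟩
  refine { sub := hr.sub, unz := hr.hon, lnk := ?_, F := fq_le y hr.G hr.H hv, F0 := ?_, h := hh.le,
           hk := hh.upd, B := ?_, fin := cel_fin Dg r, cl := ?_, ex := ?_, id := ?_ }
  · obtain ⟨τ, u, hu⟩ := hl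
    exact ⟨τ, u, fun i => hr.sur (u i), hu⟩
  · intro q hq
    exact if_neg hq
  · intro q1 a
    change ‖((‖Fq y r v q1‖ ^ (2 ^ (n + 2)) : ℝ) : ℂ) *
      ep (p ^ κ) (Dg.kp (v.lam 0) (reld Dg r v a (Fin.tail q1) (y.wv (q1 0))).c)‖ ≤ 1
    rw [norm_mul, ep_norm, mul_one, Complex.norm_real, Real.norm_of_nonneg (by positivity)]
    exact pow_le_one₀ (norm_nonneg _) (fq_le y hr.G hr.H hv q1)
  · intro q0 q1 hq _ _ _ hc
    exact clo y Dg r v hr.one hv hq.1 hc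
  · intro q0 q1 hq hF hc
    have hf := fq_f y hv hF
    constructor
    · obtain ⟨Ψ, hΨ⟩ := hd_ex hp hp2 hζ Q y hy hQ hr hv hq.1 hq.2.1 hc hf
      exact ⟨Ψ, (hc_hd y Dg r hr v h _ _ Ψ).2 hΨ⟩
    · rw [relc_reld y Dg r hr]
      exact lc0 y hr hv hq.1 hc hf
  · intro q0 q1 hq hF hc
    have hf := fq_f y hv hF
    rw [relc_reld y Dg r hr]
    have h1 := phs hp hp2 hζ Q y hy hQ hr hv hq.1 hq.2.1 hc hf
    have hk : ∀ z, Dg.kp (v.lam 0) (relq Dg r v q0 q1 z).c =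
        Dg.kp (v.lam 0) (reld Dg r v (Fin.tail q0) (Fin.tail q1) z).c := by
      intro z
      rw [← relq_trh r v hr.one hq.1 hs0 z, kp_trh]
    change ∏ e : Fin (n + 2) → Bool, cj e (Fq y r v (vt q0 q1 e)) = (((‖Fq y r v q1‖ ^ (2 ^ (n + 2)) : ℝ) : ℂ) *
      ep (p ^ κ) (Dg.kp (v.lam 0) (reld Dg r v (Fin.tail q0) (Fin.tail q1) (y.wv (q1 0))).c)) *
      ep (p ^ κ) (-Dg.kp (v.lam 0) (reld Dg r v (Fin.tail q0) (Fin.tail q1) (y.wv (q0 0))).c)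
    rw [h1, hk, hk, sub_eq_add_neg, ep_addo, mul_assoc]

end H93.BX
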