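import Pool.Agent.H93.BX.Vx

/-!
# [H93 BX CLO] closedness of the cells: port of H62/BL/Clo
-/

set_option autoImplicit false

open scoped NumberField
open IsDedekindDomain
open scoped Classical

noncomputable section

namespace H93.BX

open H63.MA H38.BB H38.BG H57.PC H57.BRA H77.WD H77.WE H62.BL

variable {K : Type} [Field K] [NumberField K] {Ω : Type} [Field Ω] [Algebra K Ω]
  {p : ℕ} {ζ : K} {D : RD0 K p ζ} {o n : ℕ} {J P Qg Lm : Type} [Group P] [Group Qg] [MulAction Qg Lm]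
  {A : GS D Ω}

private theorem clo_normal {f : ℕ → Subgroup P} (hF : Fl f) (i : ℕ) : (f i).Normal := by
  refine ⟨fun b hb a => ?_⟩
  have ha : a ∈ f 0 := by
    rw [hF.top]
    exact Subgroup.mem_top a
  have h1 := hF.com 0 i a ha b hb
  rw [Nat.zero_add] at h1
  have h2 := (f i).mul_mem h1 hb
  rwa [inv_mul_cancel_right] at h2

private theorem clo_le {f : ℕ → Subgroup P} (hF : Fl f) (i : ℕ) : f (i + 1) ≤ f 1 := by
  induction i with
  | zero => exact le_rfl
  | succ i ih => exact (hF.anti (i + 1)).trans ih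

private theorem clo_g {Dg : LG o n P Qg Lm} {v : Vd n P Qg Lm} (hv : v.Ok Dg) (k : Fin (n + 2)) : v.g k ∈ Dg.f 1 := by
  have h1 := (Dg.f 1).mul_mem (Dg.fl.anti 1 (hv.g k)) (Dg.s_mem (v.lam k))
  rwa [inv_mul_cancel_right] at h1

/-- an index which is not in a short word -/
private theorem clo_free {m : ℕ} (u : List (Lr (Fin m) Lm)) (S : Finset (Fin m)) (h : u.length + S.card < m) :
    ∃ j : Fin m, j ∉ S ∧ ∀ a ∈ u, a.i ≠ j := by
  by_contra hcon
  push Not at hcon
  have h1 : (Finset.univ : Finset (Fin m)) ⊆ (u.map Lr.i).toFinset ∪ S := by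
    intro j _
    by_cases hj : j ∈ S
    · exact Finset.mem_union_right _ hj
    · obtain ⟨a, ha, haj⟩ := hcon j hj
      refine Finset.mem_union_left _ ?_
      rw [List.mem_toFinset, List.mem_map]
      exact ⟨a, ha, haj⟩
  have h2 := Finset.card_le_card h1
  rw [Finset.card_univ, Fintype.card_fin] at h2
  have h3 := Finset.card_union_le (u.map Lr.i).toFinset S
  have h4 := List.toFinset_card_le (u.map Lr.i)
  rw [List.length_map] at h4
  omega

private theorem clo_upd {m : ℕ} (j : Fin m) : Function.update (fun _ => false) j true ≠ (fun _ : Fin m => false) := by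
  intro h
  have h1 := congrFun h j
  rw [Function.update_self] at h1
  exact Bool.noConfusion h1

private theorem clo_c5 (y : Wy D A J) (Dg : LG o n P Qg Lm) (r : Rd A J P Qg) (v : Vd n P Qg Lm)
    {q q' : Fin (n + 2) → Pl K} (h : cel y Dg r v q = cel y Dg r v q') (k : Fin (n + 2))
    (u : List (Lr (Fin (n + 2)) Lm)) (hu : u ∈ (WN Qg Lm (Set.univ : Set (Fin (n + 2))) (n + 1)).s)
    (hl : u.length ≤ n) (hk : ∀ a ∈ u, a.i ≠ k) :
    (aq Dg r v q (y.wv (q k))).c u = (aq Dg r v q' (y.wv (q' k))).c u := by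
  have h1 := congrFun (congrFun (congrArg (fun x => x.2.2.2.2.2) h) k) ⟨u, hu⟩
  unfold cel at h1
  simp only at h1
  rw [if_pos ⟨hl, hk⟩, if_pos ⟨hl, hk⟩] at h1
  exact h1

private theorem clo_c3 (y : Wy D A J) (Dg : LG o n P Qg Lm) (r : Rd A J P Qg) (v : Vd n P Qg Lm)
    {q q' : Fin (n + 2) → Pl K} (h : cel y Dg r v q = cel y Dg r v q') (w : Pl K) (hw : w ∈ r.T)
    (u : List (Lr (Fin (n + 2)) Lm)) : (aq Dg r v q (y.wv w)).c u = (aq Dg r v q' (y.wv w)).c u := by
  by_cases hu : u ∈ (WN Qg Lm (Set.univ : Set (Fin (n + 2))) (n + 1)).s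
  · have h1 := congrFun (congrFun (congrArg (fun x => x.2.2.2.1) h) ⟨w, hw⟩) ⟨u, hu⟩
    exact h1
  · rw [(aq Dg r v q (y.wv w)).out u hu, (aq Dg r v q' (y.wv w)).out u hu]

private theorem clo_c4 (y : Wy D A J) (Dg : LG o n P Qg Lm) (r : Rd A J P Qg) (v : Vd n P Qg Lm)
    {q q' : Fin (n + 2) → Pl K} (h : cel y Dg r v q = cel y Dg r v q') (σ : J)
    (u : List (Lr (Fin (n + 2)) Lm)) : (aq Dg r v q (y.wj σ)).c u = (aq Dg r v q' (y.wj σ)).c u := by
  by_cases hu : u ∈ (WN Qg Lm (Set.univ : Set (Fin (n + 2))) (n + 1)).s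
  · have h1 := congrFun (congrFun (congrArg (fun x => x.2.2.2.2.1) h) σ) ⟨u, hu⟩
    exact h1
  · rw [(aq Dg r v q (y.wj σ)).out u hu, (aq Dg r v q' (y.wj σ)).out u hu]

private theorem clo_c2 (y : Wy D A J) (Dg : LG o n P Qg Lm) (r : Rd A J P Qg) (v : Vd n P Qg Lm)
    {q q' : Fin (n + 2) → Pl K} (h : cel y Dg r v q = cel y Dg r v q') (k : Fin (n + 2)) :
    (thq r v q (y.wv (q k)) : P ⧸ Dg.f (n + 1)) = (thq r v q' (y.wv (q' k)) : P ⧸ Dg.f (n + 1)) :=
  congrFun (congrArg (fun x => x.2.2.1) h) k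

private theorem clo_loc (Dg : LG o n P Qg Lm) (r : Rd A J P Qg) (v : Vd n P Qg Lm)
    (h1 : ∀ w, w ∉ r.T → r.lab w = 1) {q0 q1 : Fin (n + 2) → Pl K} (h : ND r.T q0 q1) (z : FW A)
    (u : List (Lr (Fin (n + 2)) Lm)) (e e' : Fin (n + 2) → Bool) (he : ∀ a ∈ u, e a.i = e' a.i) :
    (aq Dg r v (vt q0 q1 e) z).c u = (aq Dg r v (vt q0 q1 e') z).c u := by
  rw [← abe_aq Dg r v h1 h z e, ← abe_aq Dg r v h1 h z e']
  exact abe_local _ _ _ z u e e' he

theorem clo (y : Wy D A J) (Dg : LG o n P Qg Lm) (r : Rd A J P Qg) (v : Vd n P Qg Lm)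
    (h1 : ∀ w, w ∉ r.T → r.lab w = 1) (hv : v.Ok Dg) {q0 q1 : Fin (n + 2) → Pl K} (h : ND r.T q0 q1)
    (hc : ∀ e : Fin (n + 2) → Bool, e ≠ (fun _ => false) → cel y Dg r v (vt q0 q1 e) = cel y Dg r v q1) :
    cel y Dg r v q0 = cel y Dg r v q1 := by
  have hfl := Dg.fl
  have hq0 : vt q0 q1 (fun _ => false) = q0 := vt_false q0 q1
  have hwd : ∀ (z : FW A), (∀ e : Fin (n + 2) → Bool, e ≠ (fun _ => false) →
      ∀ u, (aq Dg r v (vt q0 q1 e) z).c u = (aq Dg r v q1 z).c u) →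
      ∀ u : List (Lr (Fin (n + 2)) Lm), u ∈ (WN Qg Lm (Set.univ : Set (Fin (n + 2))) (n + 1)).s →
      (aq Dg r v q0 z).c u = (aq Dg r v q1 z).c u := by
    intro z hz u hu
    obtain ⟨j, -, hj⟩ := clo_free u ∅ (by
      have := hu.1
      rw [Finset.card_empty]
      omega)
    rw [← hz _ (clo_upd j) u, ← congrArg (fun q => (aq Dg r v q z).c u) hq0]
    refine clo_loc Dg r v h1 h z u _ _ fun a ha => ?_
    rw [Function.update_of_ne (hj a ha)]
  refine Prod.ext ?_ (Prod.ext ?_ (Prod.ext ?_ (Prod.ext ?_ (Prod.ext ?_ ?_))))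
  · funext w
    show thq r v q0 (y.wv w) = thq r v q1 (y.wv w)
    have hx : IsHK Dg.f (n + 2) 0 (cub (kdq A id q0 q1) r.bs v.g (y.wv w)) :=
      cub_hk hfl _ _ _ (clo_g hv) _
    have h2 := hk_closed (n := n + 1) (i := 0) (c := thq r v q1 (y.wv w)) hfl ⊥ (le_of_eq Dg.bot) hx
      (fun _ => false) fun e he => by
        rw [cub_th r v h1 h, Subgroup.mem_bot, mul_inv_eq_one]
        exact congrFun (congrArg Prod.fst (hc e he)) w
    rw [cub_th r v h1 h, Subgroup.mem_bot, mul_inv_eq_one, hq0] at h2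
    exact h2
  · funext j
    show thq r v q0 (y.wj j) = thq r v q1 (y.wj j)
    have hx : IsHK Dg.f (n + 2) 0 (cub (kdq A id q0 q1) r.bs v.g (y.wj j)) :=
      cub_hk hfl _ _ _ (clo_g hv) _
    have h2 := hk_closed (n := n + 1) (i := 0) (c := thq r v q1 (y.wj j)) hfl ⊥ (le_of_eq Dg.bot) hx
      (fun _ => false) fun e he => by
        rw [cub_th r v h1 h, Subgroup.mem_bot, mul_inv_eq_one]
        exact congrFun (congrArg (fun x => x.2.1) (hc e he)) j
    rw [cub_th r v h1 h, Subgroup.mem_bot, mul_inv_eq_one, hq0] at h2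
    exact h2
  · funext k
    show (thq r v q0 (y.wv (q0 k)) : P ⧸ Dg.f (n + 1)) = (thq r v q1 (y.wv (q1 k)) : P ⧸ Dg.f (n + 1))
    have := clo_normal hfl (n + 1)
    have hx : IsHK Dg.f (n + 1) 0 (fun e => cub (kdq A id q0 q1) r.bs v.g (y.wv (q0 k)) (k.insertNth false e)) :=
      cub_face_hk hfl _ _ _ (clo_g hv) _ k false
    have h2 := hk_closed (n := n) (i := 0) (c := thq r v q1 (y.wv (q1 k))) hfl (Dg.f (n + 1)) le_rfl hx
      (fun _ => false) fun e he => by
        have hne : (k.insertNth false e : Fin (n + 2) → Bool) ≠ (fun _ => false) := by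
          intro h3
          apply he
          funext i
          have h4 := congrFun h3 (k.succAbove i)
          rwa [Fin.insertNth_apply_succAbove] at h4
        have h5 := clo_c2 y Dg r v (hc _ hne) k
        have h6 : vt q0 q1 (k.insertNth false e) k = q0 k := by
          unfold vt
          rw [Fin.insertNth_apply_same]
          rfl
        rw [h6, QuotientGroup.eq] at h5
        rw [cub_th r v h1 h]
        have h7 := (Dg.f (n + 1)).inv_mem h5
        rw [mul_inv_rev, inv_inv] at h7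
        exact (clo_normal hfl (n + 1)).mem_comm h7
    have h8 : (k.insertNth false (fun _ => false) : Fin (n + 2) → Bool) = fun _ => false := by
      funext i
      rcases Fin.eq_self_or_eq_succAbove k i with hi | ⟨i', hi⟩
      · rw [hi, Fin.insertNth_apply_same]
      · rw [hi, Fin.insertNth_apply_succAbove]
    rw [cub_th r v h1 h, h8, hq0] at h2
    rw [eq_comm, QuotientGroup.eq]
    exact (clo_normal hfl (n + 1)).mem_comm h2
  · funext w u
    exact hwd _ (fun e he u => clo_c3 y Dg r v (hc e he) w w.2 u) u u.2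
  · funext σ u
    exact hwd _ (fun e he u => clo_c4 y Dg r v (hc e he) σ u) u u.2
  · funext k u
    show (if (u : List (Lr (Fin (n + 2)) Lm)).length ≤ n ∧ ∀ a ∈ (u : List (Lr (Fin (n + 2)) Lm)), a.i ≠ k then
      (aq Dg r v q0 (y.wv (q0 k))).c u else 0) =
      if (u : List (Lr (Fin (n + 2)) Lm)).length ≤ n ∧ ∀ a ∈ (u : List (Lr (Fin (n + 2)) Lm)), a.i ≠ k then
      (aq Dg r v q1 (y.wv (q1 k))).c u else 0
    by_cases hu : (u : List (Lr (Fin (n + 2)) Lm)).length ≤ n ∧ ∀ a ∈ (u : List (Lr (Fin (n + 2)) Lm)), a.i ≠ k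
    · rw [if_pos hu, if_pos hu]
      obtain ⟨j, hjk, hj⟩ := clo_free (u : List (Lr (Fin (n + 2)) Lm)) {k} (by
        have := hu.1
        rw [Finset.card_singleton]
        omega)
      rw [Finset.mem_singleton] at hjk
      have h2 := clo_c5 y Dg r v (hc _ (clo_upd j)) k u u.2 hu.1 hu.2
      have h3 : vt q0 q1 (Function.update (fun _ => false) j true) k = q0 k := by
        unfold vt
        rw [Function.update_of_ne (Ne.symm hjk)]
        rfl
      rw [h3] at h2
      rw [← h2]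
      conv_lhs => rw [← congrArg (fun q => (aq Dg r v q (y.wv (q0 k))).c u) hq0]
      refine clo_loc Dg r v h1 h _ u _ _ fun a ha => ?_
      rw [Function.update_of_ne (hj a ha)]
    · rw [if_neg hu, if_neg hu]

/-- the coefficients of the vertices at the words of the fixed primes -/
theorem cel_const_T (y : Wy D A J) (Dg : LG o n P Qg Lm) (r : Rd A J P Qg) (v : Vd n P Qg Lm)
    (h1 : ∀ w, w ∉ r.T → r.lab w = 1) {q0 q1 : Fin (n + 2) → Pl K} (h : ND r.T q0 q1)
    (hc : ∀ e : Fin (n + 2) → Bool, cel y Dg r v (vt q0 q1 e) = cel y Dg r v q1)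
    (w : Pl K) (hw : w ∈ r.T) (u : List (Lr (Fin (n + 2)) Lm)) (e : Fin (n + 2) → Bool) :
    (abe (WN Qg Lm Set.univ (n + 1)) (kdq A id q0 q1) (fun x => Dg.pi (r.bs x)) v.lam e (y.wv w) :
      UG Qg _ (ZMod o) _).c u = (aq Dg r v q1 (y.wv w)).c u := by
  rw [abe_aq Dg r v h1 h]
  exact clo_c3 y Dg r v (hc e) w hw u

theorem cel_const_F (y : Wy D A J) (Dg : LG o n P Qg Lm) (r : Rd A J P Qg) (v : Vd n P Qg Lm)
    (h1 : ∀ w, w ∉ r.T → r.lab w = 1) {q0 q1 : Fin (n + 2) → Pl K} (h : ND r.T q0 q1)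
    (hc : ∀ e : Fin (n + 2) → Bool, cel y Dg r v (vt q0 q1 e) = cel y Dg r v q1)
    (σ : J) (u : List (Lr (Fin (n + 2)) Lm)) (e : Fin (n + 2) → Bool) :
    (abe (WN Qg Lm Set.univ (n + 1)) (kdq A id q0 q1) (fun x => Dg.pi (r.bs x)) v.lam e (y.wj σ) :
      UG Qg _ (ZMod o) _).c u = (aq Dg r v q1 (y.wj σ)).c u := by
  rw [abe_aq Dg r v h1 h]
  exact clo_c4 y Dg r v (hc e) σ u

theorem cel_const_q (y : Wy D A J) (Dg : LG o n P Qg Lm) (r : Rd A J P Qg) (v : Vd n P Qg Lm)
    (h1 : ∀ w, w ∉ r.T → r.lab w = 1) {q0 q1 : Fin (n + 2) → Pl K} (h : ND r.T q0 q1)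
    (hc : ∀ e : Fin (n + 2) → Bool, cel y Dg r v (vt q0 q1 e) = cel y Dg r v q1)
    (k : Fin (n + 2)) (b : Bool) (u : List (Lr (Fin (n + 2)) Lm)) (hu : u.length ≤ n)
    (huk : ∀ a ∈ u, a.i ≠ k) (e : Fin (n + 2) → Bool) :
    (abe (WN Qg Lm Set.univ (n + 1)) (kdq A id q0 q1) (fun x => Dg.pi (r.bs x)) v.lam e
      (y.wv (if b then q1 k else q0 k)) : UG Qg _ (ZMod o) _).c u =
      (aq Dg r v q1 (y.wv (q1 k))).c u := by
  by_cases hW : u ∈ (WN Qg Lm (Set.univ : Set (Fin (n + 2))) (n + 1)).s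
  · have h2 := clo_c5 y Dg r v (hc (Function.update e k b)) k u hW hu huk
    have h3 : vt q0 q1 (Function.update e k b) k = if b then q1 k else q0 k := by
      unfold vt
      rw [Function.update_self]
    rw [h3] at h2
    rw [← h2, abe_aq Dg r v h1 h]
    refine clo_loc Dg r v h1 h _ u _ _ fun a ha => ?_
    rw [Function.update_of_ne (huk a ha)]
  · rw [(aq Dg r v q1 (y.wv (q1 k))).out u hW]
    exact (abe (WN Qg Lm Set.univ (n + 1)) (kdq A id q0 q1) (fun x => Dg.pi (r.bs x)) v.lam e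
      (y.wv (if b then q1 k else q0 k)) : UG Qg _ (ZMod o) _).out u hW

/-- the values at the fixed primes are constant on the cell -/
theorem cel_T (y : Wy D A J) (Dg : LG o n P Qg Lm) (r : Rd A J P Qg) (v : Vd n P Qg Lm)
    {q q' : Fin (n + 2) → Pl K} (h : cel y Dg r v q = cel y Dg r v q') (w : Pl K) (hw : w ∈ r.T) :
    thq r v q (y.wv w) = thq r v q' (y.wv w) := congrFun (congrArg Prod.fst h) ⟨w, hw⟩

/-- the values at the fixed words are constant on the cell -/
theorem cel_J (y : Wy D A J) (Dg : LG o n P Qg Lm) (r : Rd A J P Qg) (v : Vd n P Qg Lm)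
    {q q' : Fin (n + 2) → Pl K} (h : cel y Dg r v q = cel y Dg r v q') (j : J) :
    thq r v q (y.wj j) = thq r v q' (y.wj j) := congrFun (congrArg (fun x => x.2.1) h) j

/-- the value modulo the last layer at the variables is constant on the cell -/
theorem cel_q (y : Wy D A J) (Dg : LG o n P Qg Lm) (r : Rd A J P Qg) (v : Vd n P Qg Lm)
    {q q' : Fin (n + 2) → Pl K} (h : cel y Dg r v q = cel y Dg r v q') (k : Fin (n + 2)) :
    (thq r v q (y.wv (q k)) : P ⧸ Dg.f (n + 1)) = (thq r v q' (y.wv (q' k)) : P ⧸ Dg.f (n + 1)) :=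
  clo_c2 y Dg r v h k

/-- the value of `pi` at the word of a variable is constant on the cell -/
theorem cel_pi (y : Wy D A J) (Dg : LG o n P Qg Lm) (r : Rd A J P Qg) (v : Vd n P Qg Lm)
    {q q' : Fin (n + 2) → Pl K} (h : cel y Dg r v q = cel y Dg r v q') (k : Fin (n + 2)) :
    Dg.pi (thq r v q (y.wv (q k))) = Dg.pi (thq r v q' (y.wv (q' k))) := by
  have h1 := clo_c2 y Dg r v h k
  rw [QuotientGroup.eq] at h1
  have h2 := (Dg.ker _).2 (clo_le Dg.fl n h1)
  rw [map_mul, map_inv, inv_mul_eq_one] at h2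
  exact h2

end H93.BX
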