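import Pool.Agent.H77.WE.Lft

/-!
# [H93 BX LFY] lifting with arbitrary inertia and arbitrary words, given by their property (port of H77/WE/Lft and H62/BM/Lfx)

* `lfy`: a homomorphism `θ` of the free group on the letters to a `p`-group of order at most `M ≤ p ^ (m + 1)` (`K` contains the roots of unity of order
  `p ^ (m + 1)`), trivial outside `Z`, commuting with the Frobenius words `wv v` at the primes of `Z`, whose values at the words `wj j` are those of some homomorphism `ψ` at the separating elements `sj j`, comes from a homomorphism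
  which is unramified outside `S0` and `Z`.
-/

set_option autoImplicit false
set_option linter.dupNamespace false

open scoped NumberField
open IsDedekindDomain
open scoped Classical

noncomputable section

namespace H93.BX

open H63.MA H38.BB H38.BG H57.PC H57.BRA H77.WD H77.WE H48.MF H89.BRG

variable {K : Type} [Field K] [NumberField K] {Ω : Type} [Field Ω] [Algebra K Ω] [IsAlgClosure K Ω]
  {p : ℕ} {ζ : K}

/-- Hasse principle with a finite set `E` of primes at which the cocycle is known to be trivial -/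
private theorem brg1Y (hp : p.Prime) (hp2 : MOne p K) (hζ : IsPrimitiveRoot ζ p) (hz : Z2 p K)
    {D : RD0 K p ζ} {L : LDs D Ω} (Q : DP K Ω) (Fr : FR L) (E : Finset (Pl K)) {R : Type}
    [Group R] [Finite R]
    {e : R → R → ZMod p} (he : Coc p e) {ρ : Gal(Ω/K) →* R} (hρ : H38.ML.FT ρ)
    (hS : ∀ v ∈ D.S0, Kl (pb e ρ) (dec (K := K) (Q.P v) : Set Gal(Ω/K)))
    (hE : ∀ v ∈ E, ∀ hv : v ∉ D.S0,
      Kl (pb e ρ) (dec (K := K) (L.ld v hv).P : Set Gal(Ω/K)))
    (htm : ∀ v, v ∉ D.S0 → v ∉ E → ∀ τ ∈ inr L v, ρ τ ^ p = 1)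
    (hiv : ∀ v, v ∉ D.S0 → v ∉ E → iv e (ρ (Fr.F v)) (ρ (L.t v)) = 0) : Tv (pb e ρ) := by
  refine hasf hp he hζ hp2 hz ρ hρ (D.S0 ∪ E) (fun v hv => Finset.mem_union_left _ (D.above v hv))
    (brg_dc he hρ fun v hv => ?_) (fun v hvS => ?_)
  · by_cases hv0 : v ∈ D.S0
    · exact ⟨Q.P v, Q.prime v, Q.under v, qd_kl (hS v hv0)⟩
    · have hvE : v ∈ E := (Finset.mem_union.1 hv).resolve_left hv0
      exact ⟨(L.ld v hv0).P, (L.ld v hv0).prime, (L.ld v hv0).under, qd_kl (hE v hvE hv0)⟩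
  · have hv0 : v ∉ D.S0 := fun h => hvS (Finset.mem_union_left _ h)
    have hvE : v ∉ E := fun h => hvS (Finset.mem_union_right _ h)
    have hav : ¬ Above p v := fun h => hv0 (D.above v h)
    intro P' hP' h'
    have htm' : Tm e ρ (L.ld v hv0).P := fun τ hτ => htm v hv0 hvE τ (by
      rw [inr, dif_pos hv0]
      exact hτ)
    have h5 : L.t v = (L.ld v hv0).t := by rw [LDs.t, dif_pos hv0]
    obtain ⟨h1, h2⟩ := ltr hp hζ he hρ hav (D.pi_self v hv0) (L.ld v hv0)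
      (isFr_of hp hζ hz Fr v hv0) htm' P' hP' h'
    refine ⟨h1, fun F' hF' τ' hτ' => ?_⟩
    obtain ⟨h3, k, j, h4, -⟩ := h2 F' hF' τ' hτ'
    refine ⟨h3, ?_⟩
    rw [h4, ← h5, hiv v hv0 hvE, mul_zero]

private theorem lfy_aux (hp : p.Prime) (hp2 : MOne p K) (hζ : IsPrimitiveRoot ζ p) (hzz : Z2 p K)
    {m : ℕ} {z : K} (hz : IsPrimitiveRoot z (p ^ (m + 1))) {D : RD0 K p ζ} {L : LDs D Ω}
    (Q : DP K Ω) (Fr : FR L) (A : GS D Ω) (M : ℕ) (hMm : M ≤ p ^ (m + 1)) (E Z : Finset (Pl K))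
    (wv : Pl K → FW A) {J : Type} (sj : J → Gal(Ω/K)) (wj : J → FW A)
    (hwv : ∀ (H : Type) [Group H] [Finite H], IsPGroup p H → Nat.card H ≤ M →
      ∀ φ : Gal(Ω/K) →* H, HonE L E Z φ → ∀ v ∈ E ∪ Z, hat L A φ (wv v) = φ (Fr.F v))
    (hwj : ∀ (H : Type) [Group H] [Finite H], IsPGroup p H → Nat.card H ≤ M →
      ∀ φ : Gal(Ω/K) →* H, HonE L E Z φ → ∀ j, hat L A φ (wj j) = φ (sj j))
    (hF : ∀ (H : Type) [Group H] [Finite H], IsPGroup p H → Nat.card H ≤ M →
      ∀ φ φ' : Gal(Ω/K) →* H, H38.ML.FT φ → H38.ML.FT φ' → (∀ j, φ (sj j) = φ' (sj j)) →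
        Teq D.S0 Q φ φ') (n : ℕ) :
    ∀ (H : Type) [Group H] [Finite H], Nat.card H = n → IsPGroup p H → Nat.card H ≤ M →
      ∀ θ : FW A →* H, (∀ v, v ∉ E → θ (FreeGroup.of (Sum.inl v)) ^ p = 1) →
      (∀ v, v ∉ E ∪ Z ∨ v ∈ D.S0 → θ (FreeGroup.of (Sum.inl v)) = 1) →
      (∀ v ∈ E ∪ Z, v ∉ D.S0 → θ (FreeGroup.of (Sum.inl v)) * θ (wv v) =
        θ (wv v) * θ (FreeGroup.of (Sum.inl v))) →
      ∀ ψ : Gal(Ω/K) →* H, H38.ML.FT ψ → (∀ j, θ (wj j) = ψ (sj j)) →
      ∃ φ : Gal(Ω/K) →* H, HonE L E Z φ ∧ hat L A φ = θ ∧ Teq D.S0 Q φ ψ := by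
  have hp0 : NeZero p := ⟨hp.ne_zero⟩
  induction n using Nat.strong_induction_on with
  | _ n ih =>
    intro H _ _ hn hH hM θ h1 h2 h3 ψ hψ h4
    rcases subsingleton_or_nontrivial H with hs | hnt
    · refine ⟨1, ⟨⟨⊥, inferInstance, fun σ _ => by
        rw [MonoidHom.mem_ker, MonoidHom.one_apply]⟩, fun v _ _ =>
        ⟨Subsingleton.elim _ _, fun _ => Subsingleton.elim _ _⟩⟩, ?_, fun v _ σ _ =>
        Subsingleton.elim _ _⟩
      exact MonoidHom.ext fun x => Subsingleton.elim _ _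
    obtain ⟨i, hi, hc⟩ := pg_cen hp hH hnt
    have hnorm : i.range.Normal := by
      refine ⟨fun x hx g => ?_⟩
      obtain ⟨z, rfl⟩ := hx
      rw [← hc, mul_inv_cancel_right]
      exact ⟨z, rfl⟩
    have hlt : Nat.card (H ⧸ i.range) < n := by
      have h1 := Subgroup.card_eq_card_quotient_mul_card_subgroup i.range
      have h2 : Nat.card i.range = p := by
        rw [← Nat.card_congr (MonoidHom.ofInjective hi).toEquiv,
          Nat.card_congr Multiplicative.toAdd, Nat.card_zmod]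
      have h3 : 0 < Nat.card (H ⧸ i.range) := Nat.card_pos
      rw [h2, hn] at h1
      rw [h1]
      exact lt_mul_of_one_lt_right h3 hp.one_lt
    have hMq : Nat.card (H ⧸ i.range) ≤ M := by omega
    have hPq : IsPGroup p (H ⧸ i.range) := hH.to_quotient _
    set π : H →* H ⧸ i.range := QuotientGroup.mk' i.range with hπ
    have hker : ∀ g, π g = 1 ↔ ∃ z, i z = g := fun g => QuotientGroup.eq_one_iff g
    obtain ⟨s, e, c, hs1, hs2, he, hse, hcc, hsi⟩ := cx i hi hc π (QuotientGroup.mk'_surjective _)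
      hker
    -- the homomorphism to the quotient
    obtain ⟨φ', hφ1, hφ2, hφ3⟩ := ih _ hlt (H ⧸ i.range) rfl hPq hMq (π.comp θ)
      (fun v hv => by rw [MonoidHom.comp_apply, ← map_pow, h1 v hv, map_one])
      (fun v hv => by rw [MonoidHom.comp_apply, h2 v hv, map_one])
      (fun v hv hv0 => by
        simp only [MonoidHom.comp_apply]
        rw [← map_mul, h3 v hv hv0, map_mul])
      (π.comp ψ) (ft_comp π hψ) (fun j => by
        rw [MonoidHom.comp_apply, h4 j, MonoidHom.comp_apply])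
    have hrng : IsPGroup p φ'.range := hPq.to_subgroup _
    have hcmul : ∀ x y : H, c (x * y) = c x + c y + e (π x) (π y) := by
      intro x y
      refine hsi _ _ (π (x * y)) ?_
      rw [← hcc (x * y)]
      conv_lhs => rw [hcc x, hcc y]
      rw [map_mul, ofAdd_add, ofAdd_add, map_mul, map_mul]
      calc i (Multiplicative.ofAdd (c x)) * s (π x) * (i (Multiplicative.ofAdd (c y)) * s (π y))
          = i (Multiplicative.ofAdd (c x)) * (s (π x) * i (Multiplicative.ofAdd (c y))) *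
              s (π y) := by simp only [mul_assoc]
        _ = i (Multiplicative.ofAdd (c x)) * i (Multiplicative.ofAdd (c y)) *
              (s (π x) * s (π y)) := by
            rw [← hc]
            simp only [mul_assoc]
        _ = _ := by rw [hse, ← mul_assoc]
    have hFv : ∀ v ∈ E ∪ Z, φ' (Fr.F v) = π (θ (wv v)) := by
      intro v hv
      rw [← hwv _ hPq hMq φ' hφ1 v hv, hφ2]
      rfl
    have htv : ∀ v, φ' (L.t v) = π (θ (FreeGroup.of (Sum.inl v))) := by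
      intro v
      rw [← hat_inl L A φ' v, hφ2]
      rfl
    -- a homomorphism to `H` which lifts `φ'` on a decomposition group
    have hklv : ∀ (P : Ideal (𝓞 Ω)) (ψ₁ : Gal(Ω/K) →* H), H38.ML.FT ψ₁ →
        (∀ σ ∈ dec (K := K) P, φ' σ = π (ψ₁ σ)) →
          Kl (pb e φ') (dec (K := K) P : Set Gal(Ω/K)) := by
      intro P ψ₁ hψ₁ hag
      obtain ⟨E, hE, hk⟩ := hψ₁
      refine ⟨fun σ => c (ψ₁ σ), ⟨E, hE, fun σ u hu => ?_⟩, fun σ hσ τ hτ => ?_⟩
      · have h5 : ψ₁ u = 1 := MonoidHom.mem_ker.1 (hk hu)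
        change c (ψ₁ (σ * u)) = c (ψ₁ σ)
        rw [map_mul, h5, mul_one]
      · change c (ψ₁ (σ * τ)) = c (ψ₁ σ) + c (ψ₁ τ) + e (φ' σ) (φ' τ)
        rw [map_mul, hcmul, hag σ hσ, hag τ hτ]
    have hTv : Tv (pb e φ') := by
      refine brg1Y hp hp2 hζ hzz (L := L) Q Fr E he hφ1.1 (fun v hv => ?_) (fun v hvE hv => ?_)
        (fun v hv hvE τ hτ => ?_) (fun v hv hvE => ?_)
      · exact hklv _ ψ hψ fun σ hσ => hφ3 v hv σ hσ
      · obtain ⟨ψ₁, hψ1, hψ2, hψ3⟩ := loc_ex hp hζ hz L hv (Fr.kf v hv)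
          (θ (FreeGroup.of (Sum.inl v))) (θ (wv v))
          (pg_pow hp hH (hM.trans hMm) _) (pg_pow hp hH (hM.trans hMm) _)
          (h3 v (Finset.mem_union_left _ hvE) hv)
        refine hklv _ ψ₁ hψ1 fun σ hσ => ?_
        -- the product homomorphism
        have hft2 : H38.ML.FT (φ'.prod (π.comp ψ₁)) :=
          gtame_ft_prod _ _ hφ1.1 (ft_comp π hψ1)
        have hpg2 : IsPGroup p (φ'.prod (π.comp ψ₁)).range := by
          rintro ⟨_, τ, rfl⟩
          obtain ⟨a, ha⟩ := hPq (φ' τ)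
          obtain ⟨b, hb⟩ := hPq (π (ψ₁ τ))
          refine ⟨a + b, Subtype.ext (Prod.ext ?_ ?_)⟩
          · change φ' τ ^ (p ^ (a + b)) = 1
            rw [pow_add, pow_mul, ha, one_pow]
          · change π (ψ₁ τ) ^ (p ^ (a + b)) = 1
            rw [pow_add, mul_comm, pow_mul, hb, one_pow]
        obtain ⟨k, j, hkj⟩ := dc_gen hp hζ L hv (Fr.fr v hv) (φ'.prod (π.comp ψ₁)) hft2 hpg2 σ hσ
        have hk1 := congrArg Prod.fst hkj
        have hk2 := congrArg Prod.snd hkj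
        change φ' σ = φ' (Fr.F v) ^ k * φ' (L.t v) ^ j at hk1
        change π (ψ₁ σ) = π (ψ₁ (Fr.F v)) ^ k * π (ψ₁ (L.t v)) ^ j at hk2
        rw [hk1, hk2, hψ2, hψ3, hFv v (Finset.mem_union_left _ hvE), htv]
      · exact (hon_inrE hp hζ L E Z φ' hφ1 hrng hv hvE τ hτ).1
      · by_cases hvZ : v ∈ Z
        · rw [hFv v (Finset.mem_union_right _ hvZ), htv v]
          unfold iv
          rw [sub_eq_zero]
          have h7 := hcmul (θ (wv v)) (θ (FreeGroup.of (Sum.inl v)))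
          have h8 := hcmul (θ (FreeGroup.of (Sum.inl v))) (θ (wv v))
          rw [h3 v (Finset.mem_union_right _ hvZ) hv, h7] at h8
          linear_combination h8
        · rw [(hφ1.2 v hv hvE).2 hvZ]
          unfold iv
          rw [he.l1, he.r1, sub_zero]
    -- a lift
    obtain ⟨l, ⟨E₁, hE₁, hl1⟩, hl2⟩ := hTv
    have hl0 : l 1 = 0 := by
      have h5 := hl2 1 1
      unfold pb at h5
      rw [map_one, he.l1, add_zero, mul_one] at h5
      linear_combination -h5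
    obtain ⟨E', hE', hk'⟩ := hφ1.1
    set φ₁ : Gal(Ω/K) →* H := MonoidHom.mk' (fun σ => i (Multiplicative.ofAdd (l σ)) * s (φ' σ))
      (by
        intro σ τ
        rw [hl2, ofAdd_add, ofAdd_add, map_mul, map_mul]
        unfold pb
        calc i (Multiplicative.ofAdd (l σ)) * i (Multiplicative.ofAdd (l τ)) *
              i (Multiplicative.ofAdd (e (φ' σ) (φ' τ))) * s (φ' (σ * τ))
            = i (Multiplicative.ofAdd (l σ)) * i (Multiplicative.ofAdd (l τ)) *
              (s (φ' σ) * s (φ' τ)) := by rw [hse, map_mul φ', mul_assoc]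
          _ = i (Multiplicative.ofAdd (l σ)) * (i (Multiplicative.ofAdd (l τ)) * s (φ' σ)) *
              s (φ' τ) := by simp only [mul_assoc]
          _ = _ := by
            rw [hc (Multiplicative.ofAdd (l τ)) (s (φ' σ))]
            simp only [mul_assoc]) with hφ₁
    have e1 : ∀ σ, φ₁ σ = i (Multiplicative.ofAdd (l σ)) * s (φ' σ) := fun _ => rfl
    have hft1 : H38.ML.FT φ₁ := by
      refine ⟨E₁ ⊔ E', inferInstance, fun u hu => ?_⟩
      have e2 : u ∈ E₁.fixingSubgroup :=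
        IntermediateField.fixingSubgroup_antitone le_sup_left hu
      have e3 : u ∈ E'.fixingSubgroup := IntermediateField.fixingSubgroup_antitone le_sup_right hu
      have e4 : φ' u = 1 := MonoidHom.mem_ker.1 (hk' e3)
      have e5 : l u = 0 := by
        have := hl1 1 u e2
        rw [one_mul] at this
        rw [this, hl0]
      rw [MonoidHom.mem_ker, e1, e4, e5, hs1, ofAdd_zero, map_one, mul_one]
    have hπ1 : ∀ σ, π (φ₁ σ) = φ' σ := by
      intro σ
      have h5 : π (i (Multiplicative.ofAdd (l σ))) = 1 := (hker _).2 ⟨_, rfl⟩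
      rw [e1, map_mul, h5, one_mul, hs2]
    -- correction by a character
    have hcor : ∀ g h : H, π g = π h → ∃ a : ZMod p, g = h * i (Multiplicative.ofAdd a) := by
      intro g h hgh
      obtain ⟨z, hz'⟩ := (hker (h⁻¹ * g)).1 (by rw [map_mul, map_inv, hgh, inv_mul_cancel])
      refine ⟨Multiplicative.toAdd z, ?_⟩
      rw [ofAdd_toAdd, hz', mul_inv_cancel_left]
    have hn1 : ∀ v, ∃ a : ZMod p, v ∉ D.S0 →
        θ (FreeGroup.of (Sum.inl v)) = φ₁ (L.t v) * i (Multiplicative.ofAdd a) := by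
      intro v
      by_cases hv : v ∈ D.S0
      · exact ⟨0, fun h => absurd hv h⟩
      · obtain ⟨a, ha⟩ := hcor (θ (FreeGroup.of (Sum.inl v))) (φ₁ (L.t v)) (by
          rw [hπ1, ← hat_inl L A φ' v, hφ2]
          rfl)
        exact ⟨a, fun _ => ha⟩
    choose nv hnv using hn1
    have hm1 : ∀ j : Fin A.g, ∃ a : ZMod p,
        θ (FreeGroup.of (Sum.inr j)) = φ₁ (A.a j) * i (Multiplicative.ofAdd a) := by
      intro j
      refine hcor _ _ ?_
      rw [hπ1, ← hat_inr L A φ' j, hφ2]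
      rfl
    choose mj hmj using hm1
    have hfin : {v : Pl K | v ∉ D.S0 ∧ φ₁ (L.t v) ≠ 1}.Finite := ram_finite hp D L φ₁ hft1
    set T : Finset (Pl K) := (hfin.toFinset ∪ (E ∪ Z)).filter fun v => v ∉ D.S0 with hT
    obtain ⟨χ, hχ1, hχ2, hχ3⟩ := ch_ex hp hζ L A T (fun v hv => (Finset.mem_filter.1 hv).2) nv mj
    set φ : Gal(Ω/K) →* H := ctypF i hc φ₁ χ with hφ
    have hft : H38.ML.FT φ := ctypF_ft i hc _ _ hft1 hχ1
    have ht : ∀ v, v ∉ D.S0 → φ (L.t v) = θ (FreeGroup.of (Sum.inl v)) := by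
      intro v hv
      rw [hφ, ctypF_apply, hχ2 v hv]
      by_cases hvT : v ∈ T
      · rw [if_pos hvT, hnv v hv]
      · rw [if_neg hvT, ofAdd_zero, map_one, mul_one]
        have h5 : ¬ (φ₁ (L.t v) ≠ 1) ∧ v ∉ E ∪ Z := by
          rw [hT, Finset.mem_filter, Finset.mem_union, Set.Finite.mem_toFinset] at hvT
          push Not at hvT
          have h6 : ¬ ((v ∉ D.S0 ∧ φ₁ (L.t v) ≠ 1) ∨ v ∈ E ∪ Z) := fun h => hv (hvT h)
          push Not at h6
          exact ⟨fun h => h (h6.1 hv), h6.2⟩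
        rw [not_not.1 h5.1, h2 v (Or.inl h5.2)]
    have ha : ∀ j, φ (A.a j) = θ (FreeGroup.of (Sum.inr j)) := by
      intro j
      rw [hφ, ctypF_apply, hχ3, hmj]
    have hhat : hat L A φ = θ := by
      refine FreeGroup.ext_hom _ _ fun x => ?_
      rcases x with v | j
      · rw [hat_inl]
        by_cases hv : v ∈ D.S0
        · have h5 : L.t v = 1 := by
            unfold LDs.t
            rw [dif_neg (not_not.2 hv)]
          rw [h5, map_one, h2 v (Or.inr hv)]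
        · exact ht v hv
      · rw [hat_inr]
        exact ha j
    have hHon : HonE L E Z φ := by
      refine ⟨hft, fun v hv hvE => ⟨?_, fun hz => ?_⟩⟩
      · rw [ht v hv, h1 v hvE]
      · rw [ht v hv, h2 v (Or.inl fun h => (Finset.mem_union.1 h).elim hvE hz)]
    refine ⟨φ, hHon, hhat, hF H hH hM φ ψ hft hψ fun j => ?_⟩
    rw [← hwj H hH hM φ hHon j, hhat]
    exact h4 j

theorem lfy (hp : p.Prime) (hp2 : MOne p K) (hζ : IsPrimitiveRoot ζ p) {m : ℕ} (hm : 1 ≤ m)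
    {z : K} (hz : IsPrimitiveRoot z (p ^ (m + 1))) {D : RD0 K p ζ} {L : LDs D Ω} (Q : DP K Ω)
    (Fr : FR L) (A : GS D Ω) (M : ℕ) (hM : M ≤ p ^ (m + 1)) (Z : Finset (Pl K))
    (wv : Pl K → FW A) {J : Type} (sj : J → Gal(Ω/K)) (wj : J → FW A)
    (hwv : ∀ (H : Type) [Group H] [Finite H], IsPGroup p H → Nat.card H ≤ M →
      ∀ φ : Gal(Ω/K) →* H, Unz L Z φ → ∀ v ∈ Z, hat L A φ (wv v) = φ (Fr.F v))
    (hwj : ∀ (H : Type) [Group H] [Finite H], IsPGroup p H → Nat.card H ≤ M →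
      ∀ φ : Gal(Ω/K) →* H, Unz L Z φ → ∀ j, hat L A φ (wj j) = φ (sj j))
    (hF : ∀ (H : Type) [Group H] [Finite H], IsPGroup p H → Nat.card H ≤ M →
      ∀ φ φ' : Gal(Ω/K) →* H, H38.ML.FT φ → H38.ML.FT φ' → (∀ j, φ (sj j) = φ' (sj j)) →
        Teq D.S0 Q φ φ')
    (H : Type) [Group H] [Finite H] (hH : IsPGroup p H) (hHM : Nat.card H ≤ M) (θ : FW A →* H)
    (h2 : ∀ v, v ∉ Z ∨ v ∈ D.S0 → θ (FreeGroup.of (Sum.inl v)) = 1)
    (h3 : ∀ v ∈ Z, v ∉ D.S0 → θ (FreeGroup.of (Sum.inl v)) * θ (wv v) =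
      θ (wv v) * θ (FreeGroup.of (Sum.inl v)))
    (ψ : Gal(Ω/K) →* H) (hψ : H38.ML.FT ψ) (h4 : ∀ j, θ (wj j) = ψ (sj j)) :
    ∃ φ : Gal(Ω/K) →* H, Unz L Z φ ∧ hat L A φ = θ ∧ Teq D.S0 Q φ ψ := by
  have hzz : Z2 p K := by
    obtain ⟨j, rfl⟩ := Nat.exists_eq_add_of_le hm
    refine ⟨z ^ p ^ j, hz.pow (pow_pos hp.pos _) ?_⟩
    rw [← pow_add]
    congr 1
    omega
  obtain ⟨φ, h5, h6, h7⟩ := lfy_aux hp hp2 hζ hzz hz Q Fr A M hM Z ∅ wv sj wj
    (fun H _ _ hH hM φ hφ v hv => hwv H hH hM φ ⟨hφ.1, fun v hv hvz =>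
      (hφ.2 v hv hvz).2 (Finset.notMem_empty v)⟩ v ((Finset.mem_union.1 hv).elim id fun h =>
        absurd h (Finset.notMem_empty v)))
    (fun H _ _ hH hM φ hφ j => hwj H hH hM φ ⟨hφ.1, fun v hv hvz =>
      (hφ.2 v hv hvz).2 (Finset.notMem_empty v)⟩ j) hF _ H rfl hH hHM θ
    (fun v hv => by rw [h2 v (Or.inl hv), one_pow])
    (fun v hv => h2 v (hv.imp (fun h h' => h (Finset.mem_union_left _ h')) id))
    (fun v hv => h3 v ((Finset.mem_union.1 hv).elim id fun h => absurd h (Finset.notMem_empty v)))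
    ψ hψ h4
  exact ⟨φ, ⟨h5.1, fun v hv hvz => (h5.2 v hv hvz).2 (Finset.notMem_empty v)⟩, h6, h7⟩

end H93.BX
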