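import Pool.Agent.H93.BX.Clo
import Pool.Agent.H93.BX.Lfy

/-!
# [H93 BX HN] the relative homomorphism is honest: port of H62/BL/Hn

`rq_T`, `rq_J`, `rq_q`: the relative coefficients at the words of the fixed primes, at the fixed words, at the words of the variables. `hn`: `relq` comes from a homomorphism `Ψ` unramified outside `S0` and the primes of the cube and of `T`, with the same
values as `φ₀` at `S0`.
-/

set_option autoImplicit false

open scoped NumberField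
open IsDedekindDomain
open scoped Classical

noncomputable section

namespace H93.BX

open H63.MA H38.BB H38.BG H57.PC H57.BRA H77.WD H77.WE H62.BL

variable {K : Type} [Field K] [NumberField K] {Ω : Type} [Field Ω] [Algebra K Ω]
  {p : ℕ} {ζ : K} {D : RD0 K p ζ} {o n : ℕ} {J P Qg Lm : Type} [Group P] [Group Qg] [MulAction Qg Lm]
  {A : GS D Ω}

theorem rq_T (y : Wy D A J) (Dg : LG o n P Qg Lm) (r : Rd A J P Qg) (v : Vd n P Qg Lm)
    (h1 : ∀ w, w ∉ r.T → r.lab w = 1) {q0 q1 : Fin (n + 2) → Pl K} (h : ND r.T q0 q1)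
    (hc : ∀ e : Fin (n + 2) → Bool, cel y Dg r v (vt q0 q1 e) = cel y Dg r v q1)
    (w : Pl K) (hw : w ∈ r.T) (u : List (Lr (Fin (n + 2)) Lm)) (hu : u ≠ []) :
    (relq Dg r v q0 q1 (y.wv w)).c u = 0 :=
  rel_zero _ _ _ _ u hu _ fun e => cel_const_T y Dg r v h1 h hc w hw u e

theorem rq_J (y : Wy D A J) (Dg : LG o n P Qg Lm) (r : Rd A J P Qg) (v : Vd n P Qg Lm)
    (h1 : ∀ w, w ∉ r.T → r.lab w = 1) {q0 q1 : Fin (n + 2) → Pl K} (h : ND r.T q0 q1)
    (hc : ∀ e : Fin (n + 2) → Bool, cel y Dg r v (vt q0 q1 e) = cel y Dg r v q1)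
    (j : J) (u : List (Lr (Fin (n + 2)) Lm)) (hu : u ≠ []) :
    (relq Dg r v q0 q1 (y.wj j)).c u = 0 :=
  rel_zero _ _ _ _ u hu _ fun e => cel_const_F y Dg r v h1 h hc j u e

theorem rq_q (y : Wy D A J) (Dg : LG o n P Qg Lm) (r : Rd A J P Qg) (v : Vd n P Qg Lm)
    (h1 : ∀ w, w ∉ r.T → r.lab w = 1) {q0 q1 : Fin (n + 2) → Pl K} (h : ND r.T q0 q1)
    (hc : ∀ e : Fin (n + 2) → Bool, cel y Dg r v (vt q0 q1 e) = cel y Dg r v q1)
    (k : Fin (n + 2)) (b : Bool) (u : List (Lr (Fin (n + 2)) Lm)) (hu : u ≠ []) (hl : u.length ≤ n)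
    (huk : ∀ a ∈ u, a.i ≠ k) :
    (relq Dg r v q0 q1 (y.wv (if b then q1 k else q0 k))).c u = 0 :=
  rel_zero _ _ _ _ u hu _ fun e => cel_const_q y Dg r v h1 h hc k b u hl huk e

theorem rq_fix (y : Wy D A J) {Dg : LG o n P Qg Lm} {r : Rd A J P Qg} {v : Vd n P Qg Lm}
    (hr : r.Ok y.L Dg y.Z) (hv : v.Ok Dg) {q0 q1 : Fin (n + 2) → Pl K} (h : ND r.T q0 q1)
    (hc : ∀ e : Fin (n + 2) → Bool, cel y Dg r v (vt q0 q1 e) = cel y Dg r v q1)
    (hf : ∀ k, Dg.pi (thq r v q1 (y.wv (q1 k))) = v.f k) (k : Fin (n + 2)) (b : Bool) :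
    (relq Dg r v q0 q1 (y.wv (if b then q1 k else q0 k))).q = v.f k := by
  rw [relq_q hr v h]
  cases b with
  | true =>
    rw [← thq_pi hr hv h.2.1]
    exact hf k
  | false =>
    rw [← thq_pi hr hv h.1, ← hf k]
    refine cel_pi y Dg r v ?_ k
    have h1 := hc fun _ => false
    rwa [vt_false] at h1

private theorem pg_ug [Finite Qg] [Finite Lm] (hp : p.Prime) (hQ : IsPGroup p Qg) (κ : ℕ)
    (S : Set (Fin (n + 2))) :
    IsPGroup p (UG Qg (Lr (Fin (n + 2)) Lm) (ZMod (p ^ κ)) (WN Qg Lm S (n + 1))) := by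
  have hF : Fact p.Prime := ⟨hp⟩
  have hne : NeZero (p ^ κ) := ⟨pow_ne_zero κ hp.ne_zero⟩
  obtain ⟨k, hk⟩ := IsPGroup.iff_card.1 hQ
  refine IsPGroup.of_card (n := k + κ * (Nat.card (WN Qg Lm S (n + 1)).s - 1)) ?_
  rw [ug_card (wn_finite S (n + 1)), hk, ← pow_mul, pow_add]

theorem pg_ugm [Finite Qg] [Finite Lm] (hp : p.Prime) (hQ : IsPGroup p Qg) (κ : ℕ) :
    IsPGroup p (UGm (p ^ κ) n Qg Lm) := pg_ug hp hQ κ _

theorem pg_ugd [Finite Qg] [Finite Lm] (hp : p.Prime) (hQ : IsPGroup p Qg) (κ : ℕ) :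
    IsPGroup p (UGd (p ^ κ) n Qg Lm) := pg_ug hp hQ κ _

theorem fin_ugm [NeZero o] [Finite Qg] [Finite Lm] : Finite (UGm o n Qg Lm) :=
  ug_finite (wn_finite _ _)

theorem fin_ugd [NeZero o] [Finite Qg] [Finite Lm] : Finite (UGd o n Qg Lm) :=
  ug_finite (wn_finite _ _)

/-- the generators -/
private theorem hn_gen (Dg : LG o n P Qg Lm) (r : Rd A J P Qg) (v : Vd n P Qg Lm)
    {q0 q1 : Fin (n + 2) → Pl K} (w : Pl K) :
    (∃ (k : Fin (n + 2)) (b : Bool), w = (if b then q1 k else q0 k) ∧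
      relq Dg r v q0 q1 (FreeGroup.of (Sum.inl w)) = lt ⟨k, v.lam k⟩ (if b then 1 else -1)) ∨
    ((∀ k, q0 k ≠ w) ∧ (∀ k, q1 k ≠ w) ∧
      relq Dg r v q0 q1 (FreeGroup.of (Sum.inl w)) = qi (Dg.pi (r.lab w))) := by
  unfold relq rel unh
  rw [FreeGroup.lift_apply_of]
  by_cases h0 : ∃ k, q0 k = w
  · left
    refine ⟨h0.choose, false, h0.choose_spec.symm, ?_⟩
    unfold kdq
    simp only [dif_pos h0]
    rfl
  · by_cases h1 : ∃ k, q1 k = w
    · left
      refine ⟨h1.choose, true, h1.choose_spec.symm, ?_⟩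
      unfold kdq
      simp only [dif_neg h0, dif_pos h1]
      rfl
    · right
      refine ⟨fun k hk => h0 ⟨k, hk⟩, fun k hk => h1 ⟨k, hk⟩, ?_⟩
      unfold kdq
      simp only [dif_neg h0, dif_neg h1]
      rfl

theorem hn [IsAlgClosure K Ω] [Finite Qg] [Finite Lm] (hp : p.Prime) (hp2 : MOne p K)
    (hζ : IsPrimitiveRoot ζ p) (Q : DP K Ω) {κ N : ℕ} {z : K} (y : Wy D A J)
    {Dg : LG (p ^ κ) n P Qg Lm} (hy : y.Ok Q P Qg Lm κ n N z) (hQ : IsPGroup p Qg) {r : Rd A J P Qg}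
    {v : Vd n P Qg Lm} (hr : r.Ok y.L Dg y.Z) (hv : v.Ok Dg) {q0 q1 : Fin (n + 2) → Pl K} (h : ND r.T q0 q1)
    (hq : ∀ k, q0 k ∈ y.Z ∧ q1 k ∈ y.Z)
    (hc : ∀ e : Fin (n + 2) → Bool, cel y Dg r v (vt q0 q1 e) = cel y Dg r v q1)
    (hf : ∀ k, Dg.pi (thq r v q1 (y.wv (q1 k))) = v.f k) :
    ∃ Ψ : Gal(Ω/K) →* UGm (p ^ κ) n Qg Lm,
      Unz y.L (r.T ∪ Finset.univ.image q0 ∪ Finset.univ.image q1) Ψ ∧
        hat y.L A Ψ = relq Dg r v q0 q1 ∧ Teq D.S0 Q Ψ (qh.comp r.phi) := by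
  have hne : NeZero (p ^ κ) := ⟨pow_ne_zero κ hp.ne_zero⟩
  have hfin : Finite (UGm (p ^ κ) n Qg Lm) := fin_ugm
  obtain ⟨k, hk2, hκk, hkN, hMk⟩ := hy.rts.k
  obtain ⟨m, rfl⟩ : ∃ m, k = m + 1 := ⟨k - 1, by omega⟩
  have hm : 1 ≤ m := by omega
  have hzr : IsPrimitiveRoot (z ^ p ^ (N - m)) (p ^ (m + 1)) := by
    refine hy.rts.hz.pow (pow_pos hp.pos _) ?_
    rw [← pow_add]
    congr 1
    omega
  have h1 := hr.one
  have hphi : Unz y.L y.Z r.phi := ⟨hr.hon.1, fun v hv hz => hr.hon.2 v hv fun h => hz (hr.sub h)⟩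
  have hqq : ∀ a b : Qg, (qi (a * b) : UGm (p ^ κ) n Qg Lm) = qi a * qi b := fun a b =>
    map_mul (qh : Qg →* UGm (p ^ κ) n Qg Lm) a b
  have hq1 : (qi 1 : UGm (p ^ κ) n Qg Lm) = 1 := map_one (qh : Qg →* UGm (p ^ κ) n Qg Lm)
  have hqZ : ∀ (k : Fin (n + 2)) (b : Bool), (if b then q1 k else q0 k) ∈ y.Z := by
    intro k b
    cases b
    · exact (hq k).1
    · exact (hq k).2
  have hqT : ∀ (k : Fin (n + 2)) (b : Bool), (if b then q1 k else q0 k) ∉ r.T := by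
    intro k b
    cases b
    · exact h.1.2 k
    · exact h.2.1.2 k
  have htS : ∀ w, w ∈ D.S0 → y.L.t w = 1 := by
    intro w hw
    unfold LDs.t
    rw [dif_neg (not_not.2 hw)]
  -- the value at the words of the fixed primes
  have hval : ∀ w ∈ r.T, relq Dg r v q0 q1 (y.wv w) = qi (r.phi (y.Fr.F w)) := by
    intro w hw
    rw [ug_eq_qi _ fun u hu => rq_T y Dg r v h1 h hc w hw u hu, relq_q hr v h]
    congr 1
    exact hy.val.v Qg hQ hy.cQ r.phi hphi w (hr.sub hw)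
  have hvalF : ∀ j, relq Dg r v q0 q1 (y.wj j) = qi (r.phi (y.sj j)) := by
    intro j
    rw [ug_eq_qi _ fun u hu => rq_J y Dg r v h1 h hc j u hu, relq_q hr v h]
    congr 1
    exact hy.val.j Qg hQ hy.cQ r.phi hphi j
  obtain ⟨Ψ, hΨ1, hΨ2, hΨ3⟩ := lfy hp hp2 hζ hm hzr Q y.Fr A y.M hMk y.Z y.wv y.sj y.wj hy.val.v hy.val.j hy.sep
    (UGm (p ^ κ) n Qg Lm) (pg_ugm hp hQ κ) hy.cm (relq Dg r v q0 q1) (fun w hw => by
      rcases hn_gen Dg r v (q0 := q0) (q1 := q1) w with ⟨k, b, hwk, hk⟩ | ⟨-, -, hk⟩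
      · exfalso
        have hwZ : w ∈ y.Z := by
          rw [hwk]
          exact hqZ k b
        rcases hw with hw | hw
        · exact hw hwZ
        · exact hy.out w hwZ hw
      · rw [hk]
        rcases hw with hw | hw
        · rw [h1 w fun hT => hw (hr.sub hT), map_one, hq1]
        · rw [← hr.lab w, htS w hw, map_one, hq1]) (fun w hw hw0 => by
      rcases hn_gen Dg r v (q0 := q0) (q1 := q1) w with ⟨k, b, hwk, hk⟩ | ⟨-, -, hk⟩
      · rw [hk]
        symm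
        refine ug_comm _ _ _ ?_ ?_
        · rw [hwk, rq_fix y hr hv h hc hf k b, lr_smul, hv.f k]
        · intro u hu hu0
          have hcase : (∃ a ∈ u, a.i = k) ∨ n < u.length := by
            by_contra hcon
            push Not at hcon
            apply hu0
            rw [hwk]
            exact rq_q y Dg r v h1 h hc k b u hu hcon.2 fun a ha => hcon.1 a ha
          rcases hcase with ⟨a, ha, hak⟩ | hlen
          · have hmem : k ∈ u.map Lr.i := List.mem_map.2 ⟨a, ha, hak⟩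
            constructor
            · rintro ⟨-, hnd, -⟩
              rw [List.map_append, List.nodup_append] at hnd
              exact hnd.2.2 k hmem k (by simp) rfl
            · rintro ⟨-, hnd, -⟩
              rw [List.map_cons, List.nodup_cons] at hnd
              exact hnd.1 hmem
          · constructor
            · rintro ⟨hl, -, -⟩
              rw [List.length_append, List.length_singleton] at hl
              omega
            · rintro ⟨hl, -, -⟩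
              rw [List.length_cons] at hl
              omega
      · rw [hk]
        by_cases hT : w ∈ r.T
        · rw [hval w hT, ← hr.lab w, ← hqq, ← hqq]
          congr 1
          exact (frm_card hp hζ hzr y.Fr hw0 hQ (hy.cQ.trans hMk) r.phi hr.hon.1).symm
        · rw [h1 w hT, map_one, hq1, one_mul, mul_one]) (qh.comp r.phi) (ft_comp qh hr.hon.1)
      (fun j => hvalF j)
  refine ⟨Ψ, ⟨hΨ1.1, fun w hw0 hwT => ?_⟩, hΨ2, hΨ3⟩
  have h2 : Ψ (y.L.t w) = relq Dg r v q0 q1 (FreeGroup.of (Sum.inl w)) := by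
    rw [← hΨ2, hat_inl]
  rw [h2]
  rw [Finset.mem_union, Finset.mem_union, not_or, not_or] at hwT
  rcases hn_gen Dg r v (q0 := q0) (q1 := q1) w with ⟨k, b, hwk, hk⟩ | ⟨-, -, hk⟩
  · exfalso
    cases b with
    | true => exact hwT.2 (Finset.mem_image.2 ⟨k, Finset.mem_univ _, hwk.symm⟩)
    | false => exact hwT.1.2 (Finset.mem_image.2 ⟨k, Finset.mem_univ _, hwk.symm⟩)
  · rw [hk, h1 w hwT.1.1, map_one, hq1]

end H93.BX
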