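import Pool.Agent.H93.BX.Hn
import Pool.Agent.H62.BM.EpsE
import Pool.Agent.H24.RK.Rmg

/-!
# [H93 BX REC] reciprocity for the relative homomorphism: port of H62/BL/Rec with the reciprocity law with values in `ℤ/p^κ` (H24/RK/Rmg)
-/

set_option autoImplicit false

open scoped NumberField
open IsDedekindDomain
open scoped Classical

noncomputable section

namespace H93.BX

open H63.MA H38.BB H38.BG H57.PC H57.BRA H77.WD H77.WE H62.BL H24.RK Pool.Agent.H24.RM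

variable {K : Type} [Field K] [NumberField K] {Ω : Type} [Field Ω] [Algebra K Ω]
  {p : ℕ} {ζ : K} {D : RD0 K p ζ} {o n : ℕ} {J P Qg Lm : Type} [Group P] [Group Qg] [MulAction Qg Lm]
  {A : GS D Ω}

private theorem rc_relq (Dg : LG o n P Qg Lm) (r : Rd A J P Qg) (v : Vd n P Qg Lm)
    (q0 q1 : Fin (n + 2) → Pl K) (x : Pl K ⊕ Fin A.g) :
    relq Dg r v q0 q1 (FreeGroup.of x) = match kdq A id q0 q1 x with
      | none => qi (Dg.pi (r.bs x))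
      | some (j, b) => lt ⟨j, v.lam j⟩ (if b then 1 else -1) := by
  unfold relq rel unh
  rw [FreeGroup.lift_apply_of]
  rcases kdq A id q0 q1 x with _ | ⟨j, b⟩ <;> rfl

private theorem rc_t0 (Dg : LG o n P Qg Lm) (r : Rd A J P Qg) (v : Vd n P Qg Lm)
    {q0 q1 : Fin (n + 2) → Pl K} (h : ND r.T q0 q1) (k : Fin (n + 2)) :
    relq Dg r v q0 q1 (FreeGroup.of (Sum.inl (q0 k))) = lt ⟨k, v.lam k⟩ (-1) := by
  have h1 : ∃ k', q0 k' = q0 k := ⟨k, rfl⟩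
  have h2 : kdq A id q0 q1 (Sum.inl (q0 k)) = some (k, false) := by
    show (if h : ∃ k', q0 k' = q0 k then some (id h.choose, false) else
      if h : ∃ k', q1 k' = q0 k then some (id h.choose, true) else none) = some (k, false)
    rw [dif_pos h1, id, h.1.1 h1.choose_spec]
  rw [rc_relq, h2]
  rfl

private theorem rc_t1 (Dg : LG o n P Qg Lm) (r : Rd A J P Qg) (v : Vd n P Qg Lm)
    {q0 q1 : Fin (n + 2) → Pl K} (h : ND r.T q0 q1) (k : Fin (n + 2)) :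
    relq Dg r v q0 q1 (FreeGroup.of (Sum.inl (q1 k))) = lt ⟨k, v.lam k⟩ 1 := by
  have h1 : ∃ k', q1 k' = q1 k := ⟨k, rfl⟩
  have h0 : ¬ ∃ k', q0 k' = q1 k := fun ⟨k', hk'⟩ => h.2.2 k' k hk'
  have h2 : kdq A id q0 q1 (Sum.inl (q1 k)) = some (k, true) := by
    show (if h : ∃ k', q0 k' = q1 k then some (id h.choose, false) else
      if h : ∃ k', q1 k' = q1 k then some (id h.choose, true) else none) = some (k, true)
    rw [dif_neg h0, dif_pos h1, id, h.2.1.1 h1.choose_spec]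
  rw [rc_relq, h2]
  rfl

private theorem rc_tn (Dg : LG o n P Qg Lm) (r : Rd A J P Qg) (v : Vd n P Qg Lm)
    {q0 q1 : Fin (n + 2) → Pl K} {w : Pl K} (h0 : ∀ k, q0 k ≠ w) (h1 : ∀ k, q1 k ≠ w) :
    relq Dg r v q0 q1 (FreeGroup.of (Sum.inl w)) = qi (Dg.pi (r.bs (Sum.inl w))) := by
  have h2 : kdq A id q0 q1 (Sum.inl w) = none := by
    show (if h : ∃ k', q0 k' = w then some (id h.choose, false) else
      if h : ∃ k', q1 k' = w then some (id h.choose, true) else none) = none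
    rw [dif_neg fun ⟨k, hk⟩ => h0 k hk, dif_neg fun ⟨k, hk⟩ => h1 k hk]
  rw [rc_relq, h2]

theorem rec [IsAlgClosure K Ω] [Finite Qg] [Fintype Lm] (hp : p.Prime) (hp2 : MOne p K)
    (hζ : IsPrimitiveRoot ζ p) (Q : DP K Ω) {κ N : ℕ} {z : K} (y : Wy D A J) {Dg : LG (p ^ κ) n P Qg Lm}
    (hy : y.Ok Q P Qg Lm κ n N z) (hQ : IsPGroup p Qg) {r : Rd A J P Qg} {v : Vd n P Qg Lm}
    (hr : r.Ok y.L Dg y.Z) (hv : v.Ok Dg) {q0 q1 : Fin (n + 2) → Pl K} (h : ND r.T q0 q1)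
    (hq : ∀ k, q0 k ∈ y.Z ∧ q1 k ∈ y.Z)
    (hc : ∀ e : Fin (n + 2) → Bool, cel y Dg r v (vt q0 q1 e) = cel y Dg r v q1)
    (hf : ∀ k, Dg.pi (thq r v q1 (y.wv (q1 k))) = v.f k) :
    ∑ k, ∑ b : Bool, (if b then 1 else -1) * ∑ t : Fin (n + 1) → Lr (Fin (n + 2)) Lm,
      (relq Dg r v q0 q1 (y.wv (if b then q1 k else q0 k))).c (List.ofFn t) *
        (Dg.eps (List.ofFn t ++ [⟨k, v.lam k⟩]) - Dg.eps (⟨k, v.lam k⟩ :: List.ofFn t)) = 0 := by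
  have hne : NeZero (p ^ κ) := ⟨pow_ne_zero κ hp.ne_zero⟩
  have hfin : Finite (UGm (p ^ κ) n Qg Lm) := fin_ugm
  have hpg : IsPGroup p (UGm (p ^ κ) n Qg Lm) := pg_ugm hp hQ κ
  obtain ⟨Ψ, hΨ, hhat, hteq⟩ := hn hp hp2 hζ Q y hy hQ hr hv h hq hc hf
  obtain ⟨k₀, hk2, hκk, hkN, hMk⟩ := hy.rts.k
  obtain ⟨T', hT'⟩ : ∃ T' : Finset (Pl K), T' = r.T ∪ (Finset.univ.image q0 ∪ Finset.univ.image q1) :=
    ⟨_, rfl⟩
  have hmem : ∀ w, w ∈ r.T ∪ Finset.univ.image q0 ∪ Finset.univ.image q1 ↔ w ∈ T' := by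
    intro w
    rw [hT', Finset.union_assoc]
  have hsub : ∀ w ∈ T', w ∈ y.Z := by
    intro w hw
    rw [hT'] at hw
    simp only [Finset.mem_union, Finset.mem_image, Finset.mem_univ, true_and] at hw
    rcases hw with hw | ⟨k, rfl⟩ | ⟨k, rfl⟩
    · exact hr.sub hw
    · exact (hq k).1
    · exact (hq k).2
  have hΨZ : Unz y.L y.Z Ψ := ⟨hΨ.1, fun w hw hz => hΨ.2 w hw fun h => hz (hsub w ((hmem w).1 h))⟩
  have hF : ∀ w ∈ y.Z, Ψ (y.Fr.F w) = relq Dg r v q0 q1 (y.wv w) := by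
    intro w hw
    rw [← hhat]
    exact (hy.val.v _ hpg hy.cm Ψ hΨZ w hw).symm
  have ht : ∀ w, Ψ (y.L.t w) = relq Dg r v q0 q1 (FreeGroup.of (Sum.inl w)) := by
    intro w
    rw [← hhat, hat_inl]
  have hTF : ∀ w ∈ r.T, ∃ z : Qg, Ψ (y.Fr.F w) = qi z := by
    intro w hw
    rw [hF w (hr.sub hw)]
    exact ⟨_, ug_eq_qi _ (rq_T y Dg r v hr.one h hc w hw)⟩
  have hTt : ∀ w ∈ r.T, ∃ z : Qg, Ψ (y.L.t w) = qi z := by
    intro w hw
    rw [ht]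
    exact ⟨_, rc_tn Dg r v (fun k hk => h.1.2 k (hk ▸ hw)) (fun k hk => h.2.1.2 k (hk ▸ hw))⟩
  have hv0 : ∀ x : ZMod (p ^ κ), (((x.val : ℤ)) : ZMod (p ^ κ)) = x := fun x => by
    rw [Int.cast_natCast, ZMod.natCast_zmod_val]
  have hpn : ((p ^ κ : ℕ) : ℤ) = (p : ℤ) ^ κ := by push_cast; rfl
  have hiz : IZ ((p : ℤ) ^ κ) (fun σ τ : Gal(Ω/K) => ((Dg.cc (Ψ σ) (Ψ τ)).val : ℤ)) := by
    refine ⟨fun σ => ?_, fun σ => ?_, fun σ τ υ => ?_⟩
    · simp only [map_one, H62.BM.cc_l1, ZMod.val_zero, Nat.cast_zero]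
    · simp only [map_one, H62.BM.cc_r1, ZMod.val_zero, Nat.cast_zero]
    · rw [← hpn, ← ZMod.intCast_zmod_eq_zero_iff_dvd]
      push_cast
      rw [ZMod.natCast_zmod_val, ZMod.natCast_zmod_val, ZMod.natCast_zmod_val, ZMod.natCast_zmod_val,
        map_mul, map_mul]
      linear_combination H62.BM.cc_co Dg (Ψ σ) (Ψ τ) (Ψ υ)
  have hdv := rmgn hp hy.rts.mm hp2 hζ hy.rts.hz hy.rts.hzζ hy.rts.nl Q y.Fr κ k₀ hκk hkN
    (UGm (p ^ κ) n Qg Lm) Ψ hΨ.1 (fun σ τ : Gal(Ω/K) => ((Dg.cc (Ψ σ) (Ψ τ)).val : ℤ)) hiz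
    (fun σ σ' τ τ' h1 h2 => by simp only [h1, h2])
    (fun w hw => ⟨fun _ => 0, ⟨⊥, inferInstance, fun _ _ _ => rfl⟩, fun σ hσ τ hτ => by
      have h1 : Ψ σ = qi (r.phi σ) := hteq w hw σ hσ
      have h2 : Ψ τ = qi (r.phi τ) := hteq w hw τ hτ
      simp only [h1, h2, H62.BM.cc_qi, ZMod.val_zero, dd, Nat.cast_zero, add_zero, sub_zero, dvd_zero]⟩)
    (fun w hw τ hτ => pg_pow hp hpg (hy.cm.trans hMk) (Ψ τ))
    T' (fun w hw => hy.out w (hsub w hw))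
    (fun w hw hwT => hΨ.2 w hw fun h => hwT ((hmem w).1 h))
  rw [← hpn, ← ZMod.intCast_zmod_eq_zero_iff_dvd, Int.cast_sum] at hdv
  have hsum : ∑ w ∈ T', iv Dg.cc (Ψ (y.Fr.F w)) (Ψ (y.L.t w)) = 0 := by
    rw [← hdv]
    refine Finset.sum_congr rfl fun w _ => ?_
    unfold iv
    rw [Int.cast_sub, hv0, hv0]
  have hd1 : Disjoint r.T (Finset.univ.image q0 ∪ Finset.univ.image q1) := by
    rw [Finset.disjoint_left]
    intro w hw hw'
    rw [Finset.mem_union] at hw'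
    rcases hw' with hw' | hw'
    · obtain ⟨k, -, rfl⟩ := Finset.mem_image.1 hw'
      exact h.1.2 k hw
    · obtain ⟨k, -, rfl⟩ := Finset.mem_image.1 hw'
      exact h.2.1.2 k hw
  have hd2 : Disjoint (Finset.univ.image q0) (Finset.univ.image q1) := by
    rw [Finset.disjoint_left]
    intro w hw hw'
    obtain ⟨j, -, rfl⟩ := Finset.mem_image.1 hw
    obtain ⟨k, -, hk⟩ := Finset.mem_image.1 hw'
    exact h.2.2 j k hk.symm
  rw [hT', Finset.sum_union hd1, Finset.sum_union hd2, Finset.sum_image (fun a _ b _ hab => h.1.1 hab),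
    Finset.sum_image (fun a _ b _ hab => h.2.1.1 hab)] at hsum
  have hz0 : ∑ w ∈ r.T, iv Dg.cc (Ψ (y.Fr.F w)) (Ψ (y.L.t w)) = 0 := by
    refine Finset.sum_eq_zero fun w hw => ?_
    obtain ⟨a, ha⟩ := hTF w hw
    obtain ⟨b, hb⟩ := hTt w hw
    unfold iv
    rw [ha, hb, H62.BM.cc_qi, H62.BM.cc_qi, sub_zero]
  rw [hz0, zero_add] at hsum
  have e0 : ∀ k, iv Dg.cc (Ψ (y.Fr.F (q0 k))) (Ψ (y.L.t (q0 k))) =
      -1 * ∑ t : Fin (n + 1) → Lr (Fin (n + 2)) Lm,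
        (relq Dg r v q0 q1 (y.wv (q0 k))).c (List.ofFn t) *
        (Dg.eps (List.ofFn t ++ [⟨k, v.lam k⟩]) - Dg.eps (⟨k, v.lam k⟩ :: List.ofFn t)) := by
    intro k
    have h1 := rq_fix y hr hv h hc hf k false
    rw [hF _ (hq k).1, ht, rc_t0 Dg r v h]
    unfold iv
    exact H62.BM.cc_iv Dg _ k (v.lam k) (by
      have h2 : (relq Dg r v q0 q1 (y.wv (q0 k))).q = v.f k := h1
      rw [h2]
      exact hv.f k) (-1)
  have e1 : ∀ k, iv Dg.cc (Ψ (y.Fr.F (q1 k))) (Ψ (y.L.t (q1 k))) =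
      1 * ∑ t : Fin (n + 1) → Lr (Fin (n + 2)) Lm,
        (relq Dg r v q0 q1 (y.wv (q1 k))).c (List.ofFn t) *
        (Dg.eps (List.ofFn t ++ [⟨k, v.lam k⟩]) - Dg.eps (⟨k, v.lam k⟩ :: List.ofFn t)) := by
    intro k
    have h1 := rq_fix y hr hv h hc hf k true
    rw [hF _ (hq k).2, ht, rc_t1 Dg r v h]
    unfold iv
    exact H62.BM.cc_iv Dg _ k (v.lam k) (by
      have h2 : (relq Dg r v q0 q1 (y.wv (q1 k))).q = v.f k := h1
      rw [h2]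
      exact hv.f k) 1
  rw [Finset.sum_congr rfl fun k _ => e0 k, Finset.sum_congr rfl fun k _ => e1 k,
    ← Finset.sum_add_distrib] at hsum
  rw [← hsum]
  refine Finset.sum_congr rfl fun k _ => ?_
  rw [Fintype.sum_bool, add_comm]
  rfl

end H93.BX
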